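import Pool.Agent.Helper66.CW.Zset2

/-!
# Few integers have no odd pair of large index (CW project, MP_a499ba_nt)
-/

set_option autoImplicit false

namespace Pool.Agent.Helper66.CW

open Finset Filter Pool.Agent.Helper66.MB

/-- A prime of large index divides at most one of the `n + h j`. -/
theorem fact_Q {k : ℕ} (h : Fin k → ℕ) (hinj : Function.Injective h) (n p : ℕ) (hn : 1 ≤ n)
    (hpH : ∑ j, h j < p) (j : Fin k) (hj : p ∣ n + h j) :
    (Q h n).factorization p = (n + h j).factorization p := by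
  classical
  unfold Q
  rw [Nat.factorization_prod (fun i _ => by omega), Finset.sum_apply']
  rw [sum_eq_single j]
  · intro i _ hij
    apply Nat.factorization_eq_zero_of_not_dvd
    intro hi
    have h1 : h i ≠ h j := fun h2 => hij (hinj h2)
    have hHi : h i ≤ ∑ j, h j := single_le_sum (f := h) (fun _ _ => Nat.zero_le _) (mem_univ i)
    have hHj : h j ≤ ∑ j, h j := single_le_sum (f := h) (fun _ _ => Nat.zero_le _) (mem_univ j)
    rcases lt_or_gt_of_ne h1 with h2 | h2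
    · have h3 : p ∣ (n + h j) - (n + h i) := Nat.dvd_sub hj hi
      have h4 := Nat.le_of_dvd (by omega) h3
      omega
    · have h3 : p ∣ (n + h i) - (n + h j) := Nat.dvd_sub hi hj
      have h4 := Nat.le_of_dvd (by omega) h3
      omega
  · intro h2
    exact absurd (mem_univ j) h2

open Classical in
theorem zcover {k : ℕ} (h : Fin k → ℕ) (hinj : Function.Injective h) (j₀ : Fin k) (N I : ℕ)
    (hI : ∑ j, h j < I) :
    (Icc 1 N).filter (fun n => ∀ i, I ≤ i → ¬ odd2 i (Q h n)) ⊆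
      (univ.biUnion (fun j : Fin k => (Icc 1 N).filter (fun n => ∃ m, I + 1 ≤ m ∧ m ^ 2 ∣ n + h j))) ∪
      (univ.biUnion (fun z : Fin k × Fin k => (Icc 1 N).filter (fun n => ∃ i, I ≤ i ∧ pa i ∣ n + h z.1 ∧ pb i ∣ n + h z.2))) ∪
      (Icc 1 N).filter (fun n => ∀ p : ℕ, p.Prime → p ∣ n + h j₀ → ix p < I) := by
  intro n hn
  obtain ⟨h1, h2⟩ := mem_filter.1 hn
  have hn1 := (mem_Icc.1 h1).1
  rw [mem_union, mem_union]
  by_contra hcon
  push Not at hcon
  obtain ⟨⟨hA, hB⟩, hD⟩ := hcon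
  have hA' : ∀ (j : Fin k) (m : ℕ), I + 1 ≤ m → ¬ m ^ 2 ∣ n + h j := by
    intro j m hm hd
    apply hA
    rw [mem_biUnion]
    exact ⟨j, mem_univ _, mem_filter.2 ⟨h1, m, hm, hd⟩⟩
  have hB' : ∀ (j l : Fin k) (i : ℕ), I ≤ i → ¬ (pa i ∣ n + h j ∧ pb i ∣ n + h l) := by
    intro j l i hi hd
    apply hB
    rw [mem_biUnion]
    exact ⟨(j, l), mem_univ _, mem_filter.2 ⟨h1, i, hi, hd.1, hd.2⟩⟩
  have hD' : ∃ p : ℕ, p.Prime ∧ p ∣ n + h j₀ ∧ I ≤ ix p := by
    by_contra hc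
    push Not at hc
    exact hD (mem_filter.2 ⟨h1, fun p hp hd => by
      by_contra hx
      have := hc p hp hd
      omega⟩)
  obtain ⟨p, hp, hpd, hpi⟩ := hD'
  -- exponents of large primes
  have hone : ∀ (i : ℕ), I ≤ i → ∀ q : ℕ, (q = pa i ∨ q = pb i) → ∀ j, q ∣ n + h j →
      (Q h n).factorization q = 1 := by
    intro i hi q hq j hj
    have h3 := lt_pa i
    have h4 := pa_lt_pb i
    have hqp : q.Prime := by rcases hq with rfl | rfl; exacts [pa_prime i, pb_prime i]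
    have hqi : i + 1 ≤ q := by rcases hq with rfl | rfl <;> omega
    rw [fact_Q h hinj n q hn1 (by omega) j hj]
    have h5 : 1 ≤ (n + h j).factorization q := (hqp.dvd_iff_one_le_factorization (by omega)).1 hj
    have h6 : ¬ 2 ≤ (n + h j).factorization q := by
      intro h7
      exact hA' j q (by omega) ((hqp.pow_dvd_iff_le_factorization (by omega)).2 h7)
    omega
  have hzero : ∀ q : ℕ, q.Prime → (∀ j, ¬ q ∣ n + h j) → (Q h n).factorization q = 0 := by
    intro q hq hj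
    apply Nat.factorization_eq_zero_of_not_dvd
    unfold Q
    rw [Prime.dvd_finsetProd_iff (Nat.Prime.prime hq)]
    rintro ⟨j, -, hj'⟩
    exact hj j hj'
  obtain ⟨i, hi⟩ := prime_cases hp
  have hix : I ≤ i := by
    rcases hi with rfl | rfl
    · rwa [ix_pa] at hpi
    · have : ix (pb i) = i := by unfold ix; rw [count_pb]; omega
      rwa [this] at hpi
  apply h2 i hix
  unfold odd2
  rcases hi with rfl | rfl
  · rw [hone i hix (pa i) (Or.inl rfl) j₀ hpd]
    have h7 : (Q h n).factorization (pb i) = 0 :=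
      hzero _ (pb_prime i) fun l hl => hB' j₀ l i hix ⟨hpd, hl⟩
    rw [h7]
    exact odd_one
  · rw [hone i hix (pb i) (Or.inr rfl) j₀ hpd]
    have h7 : (Q h n).factorization (pa i) = 0 :=
      hzero _ (pa_prime i) fun l hl => hB' l j₀ i hix ⟨hl, hpd⟩
    rw [h7, zero_add]
    exact odd_one

open Classical in
theorem zset {k : ℕ} (hk : 1 ≤ k) (h : Fin k → ℕ) (hinj : Function.Injective h) (ε : ℝ) (hε : 0 < ε) :
    ∃ N₀ : ℕ, ∀ N I : ℕ, N₀ ≤ N → Real.log N ^ 2 ≤ I → (I : ℝ) ≤ Real.log N ^ 2 + 1 →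
      (((Icc 1 N).filter (fun n => ∀ i, I ≤ i → ¬ odd2 i (Q h n))).card : ℝ) ≤ ε * N := by
  set j₀ : Fin k := ⟨0, by omega⟩ with hj₀
  set H : ℕ := ∑ j, h j with hH
  set C : ℝ := 2 * k + 21 * (k : ℝ) ^ 2 + 260 with hC
  have hC0 : 0 < C := by positivity
  have hk0 : (0 : ℝ) ≤ k := Nat.cast_nonneg _
  obtain ⟨N₀, hN₀⟩ := exists_nat_ge (Real.exp (max ((C / ε) ^ 2) ((H : ℝ) + 2)))
  refine ⟨max N₀ (H + 2), fun N I hN hI1 hI2 => ?_⟩
  have hNN₀ : N₀ ≤ N := (le_max_left _ _).trans hN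
  have hNH : H + 2 ≤ N := (le_max_right _ _).trans hN
  have hNHR : (H : ℝ) + 2 ≤ N := by exact_mod_cast hNH
  have hHR : (0 : ℝ) ≤ H := Nat.cast_nonneg _
  have hN0 : (0 : ℝ) < N := by linarith
  set L := Real.log N with hL
  have hexp : Real.exp (max ((C / ε) ^ 2) ((H : ℝ) + 2)) ≤ N := hN₀.trans (by exact_mod_cast hNN₀)
  have hLm : max ((C / ε) ^ 2) ((H : ℝ) + 2) ≤ L := (Real.le_log_iff_exp_le hN0).2 hexp
  have hL1 : (C / ε) ^ 2 ≤ L := (le_max_left _ _).trans hLm
  have hL2 : (H : ℝ) + 2 ≤ L := (le_max_right _ _).trans hLm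
  have hLp : 1 ≤ L := by linarith
  have hL0 : 0 < L := by linarith
  have hLL : L ≤ L ^ 2 := by nlinarith
  have hIH : H < I := by
    have : (H : ℝ) < I := by linarith
    exact_mod_cast this
  have hI0 : 1 ≤ I := by omega
  have hIR : (0 : ℝ) < I := by exact_mod_cast hI0
  -- sizes
  have hsq : L ≤ 2 * Real.sqrt N := by
    have h1 : Real.log N ≤ (N : ℝ) ^ (1 / 2 : ℝ) / (1 / 2) := Real.log_le_rpow_div hN0.le (by norm_num)
    rw [Real.sqrt_eq_rpow]
    linarith
  have hsqN : Real.sqrt N ≤ N * (2 / L) := by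
    rw [mul_div_assoc', le_div_iff₀ hL0]
    have h1 : Real.sqrt N * Real.sqrt N = N := Real.mul_self_sqrt hN0.le
    nlinarith [Real.sqrt_nonneg (N : ℝ)]
  have hhj : ∀ j : Fin k, (h j : ℝ) ≤ H := by
    intro j
    have : h j ≤ H := single_le_sum (f := h) (fun _ _ => Nat.zero_le _) (mem_univ j)
    exact_mod_cast this
  have hinvI : (N : ℝ) / I ≤ N * (1 / L) := by
    rw [mul_one_div]
    exact div_le_div_of_nonneg_left hN0.le hL0 (hLL.trans hI1)
  -- the three counts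
  have hA : ∀ j : Fin k, (((Icc 1 N).filter (fun n => ∃ m, I + 1 ≤ m ∧ m ^ 2 ∣ n + h j)).card : ℝ) ≤ N * (2 / L) := by
    intro j
    refine (countA N (h j) I hI0).trans ?_
    have h1 : ((N : ℝ) + h j) / I ≤ (2 * N) / I := by
      apply div_le_div_of_nonneg_right _ hIR.le
      have := hhj j
      linarith
    have h2 : (2 * (N : ℝ)) / I = 2 * (N / I) := by ring
    have h3 : N * (2 / L) = 2 * (N * (1 / L)) := by ring
    linarith
  have hpi : ∀ j : Fin k, (Nat.primeCounting (N + h j) : ℝ) ≤ N * (18 / L) := by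
    intro j
    have hM : (N + h j : ℕ) ≤ 2 * N := by
      have : h j ≤ H := single_le_sum (f := h) (fun _ _ => Nat.zero_le _) (mem_univ j)
      omega
    have h1 : (Nat.primeCounting (N + h j) : ℝ) ≤ Nat.primeCounting (2 * N) := by
      exact_mod_cast Nat.monotone_primeCounting hM
    have h2 := Chebyshev.pi_le_log4_mul_div (x := ((2 * N : ℕ) : ℝ)) (by push_cast; linarith)
    rw [Nat.floor_natCast] at h2
    have h3 : L / 2 ≤ Real.log (Real.sqrt ((2 * N : ℕ) : ℝ)) := by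
      rw [Real.log_sqrt (Nat.cast_nonneg _)]
      have : L ≤ Real.log ((2 * N : ℕ) : ℝ) := Real.log_le_log hN0 (by push_cast; linarith)
      linarith
    have h4 : Real.log 4 ≤ 7 / 5 := by
      have h5 : Real.log 4 = 2 * Real.log 2 := by
        rw [show (4 : ℝ) = 2 ^ 2 by norm_num, Real.log_pow]
        norm_num
      have := Real.log_two_lt_d9
      rw [h5]
      linarith
    have h4' : 0 ≤ Real.log 4 := Real.log_nonneg (by norm_num)
    have h5 : Real.log 4 * ((2 * N : ℕ) : ℝ) / Real.log (Real.sqrt ((2 * N : ℕ) : ℝ)) ≤ N * (6 / L) := by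
      have h6 : Real.log 4 * ((2 * N : ℕ) : ℝ) / Real.log (Real.sqrt ((2 * N : ℕ) : ℝ)) ≤
          Real.log 4 * ((2 * N : ℕ) : ℝ) / (L / 2) :=
        div_le_div_of_nonneg_left (by positivity) (by linarith) h3
      have h7 : Real.log 4 * ((2 * N : ℕ) : ℝ) / (L / 2) = N * (4 * Real.log 4 / L) := by
        push_cast
        field_simp
        ring
      have h8 : 4 * Real.log 4 / L ≤ 6 / L := div_le_div_of_nonneg_right (by linarith) hL0.le
      have h9 := mul_le_mul_of_nonneg_left h8 hN0.le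
      linarith
    have h6 : Real.sqrt ((2 * N : ℕ) : ℝ) ≤ N * (4 / L) := by
      have h7 : Real.sqrt ((2 * N : ℕ) : ℝ) ≤ 2 * Real.sqrt N := by
        push_cast
        rw [Real.sqrt_mul (by norm_num)]
        have : Real.sqrt 2 ≤ 2 := by
          rw [Real.sqrt_le_left (by norm_num)]
          norm_num
        exact mul_le_mul_of_nonneg_right this (Real.sqrt_nonneg _)
      have h8 : N * (4 / L) = 2 * (N * (2 / L)) := by ring
      linarith
    have h7 : (N : ℝ) * (18 / L) = N * (6 / L) + N * (4 / L) + N * (8 / L) := by ring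
    have h8 : 0 ≤ (N : ℝ) * (8 / L) := by positivity
    linarith
  have hB : ∀ z : Fin k × Fin k, (((Icc 1 N).filter (fun n => ∃ i, I ≤ i ∧ pa i ∣ n + h z.1 ∧ pb i ∣ n + h z.2)).card : ℝ) ≤
      N * (19 / L) := by
    intro z
    have h1 := countB N (h z.1) (h z.2) I hI0
    have h2 := hpi z.1
    have h3 : (N : ℝ) * (19 / L) = N * (1 / L) + N * (18 / L) := by ring
    linarith
  have hD : (((Icc 1 N).filter (fun n => ∀ p : ℕ, p.Prime → p ∣ n + h j₀ → ix p < I)).card : ℝ) ≤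
      N * (4 / L) + N * (256 / Real.sqrt L) := by
    set M := N + h j₀ with hM
    have hM2 : M ≤ 2 * N := by
      have : h j₀ ≤ H := single_le_sum (f := h) (fun _ _ => Nat.zero_le _) (mem_univ j₀)
      omega
    have hMR : (M : ℝ) ≤ 2 * N := by exact_mod_cast hM2
    have hMN : (N : ℝ) ≤ M := by exact_mod_cast Nat.le_add_right N (h j₀)
    have h1 : ((Icc 1 N).filter (fun n => ∀ p : ℕ, p.Prime → p ∣ n + h j₀ → ix p < I)).card ≤
        ((Icc 1 M).filter (fun m => ∀ p : ℕ, p.Prime → p ∣ m → ix p < I)).card := by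
      refine card_le_card_of_injOn (fun n => n + h j₀) ?_ ?_
      · intro n hn
        obtain ⟨q1, q2⟩ := mem_filter.1 (mem_coe.1 hn)
        have q3 := mem_Icc.1 q1
        rw [mem_coe, mem_filter, mem_Icc]
        exact ⟨⟨by show 1 ≤ n + h j₀; omega, by show n + h j₀ ≤ N + h j₀; omega⟩, q2⟩
      · intro n _ m _ hnm
        simpa using hnm
    have h2 := countD M I (by omega)
    have h3 : Real.sqrt M ≤ N * (4 / L) := by
      have h7 : Real.sqrt M ≤ 2 * Real.sqrt N := by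
        have h8 : Real.sqrt M ≤ Real.sqrt (4 * N) := Real.sqrt_le_sqrt (by linarith)
        rwa [Real.sqrt_mul (by norm_num), show Real.sqrt 4 = 2 by
          rw [show (4 : ℝ) = 2 ^ 2 by norm_num, Real.sqrt_sq (by norm_num)]] at h8
      have h8 : N * (4 / L) = 2 * (N * (2 / L)) := by ring
      linarith
    have h4 : 64 * (M : ℝ) * (2 * (I : ℝ)) ^ (1 / 4 : ℝ) / Real.log M ≤ N * (256 / Real.sqrt L) := by
      have h5 : L ≤ Real.log M := Real.log_le_log hN0 hMN
      have h6 : (2 * (I : ℝ)) ^ (1 / 4 : ℝ) ≤ 2 * Real.sqrt L := by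
        have h7 : 2 * (I : ℝ) ≤ 4 * L ^ 2 := by nlinarith
        have h8 : (2 * (I : ℝ)) ^ (1 / 4 : ℝ) ≤ (4 * L ^ 2) ^ (1 / 4 : ℝ) :=
          Real.rpow_le_rpow (by positivity) h7 (by norm_num)
        have h9 : (4 * L ^ 2) ^ (1 / 4 : ℝ) = Real.sqrt 2 * Real.sqrt L := by
          rw [← Real.sqrt_mul (by norm_num), show 4 * L ^ 2 = (2 * L) ^ 2 by ring, Real.sqrt_eq_rpow,
            ← Real.rpow_natCast, ← Real.rpow_mul (by positivity)]
          norm_num
        have h10 : Real.sqrt 2 ≤ 2 := by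
          rw [Real.sqrt_le_left (by norm_num)]
          norm_num
        rw [h9] at h8
        exact h8.trans (mul_le_mul_of_nonneg_right h10 (Real.sqrt_nonneg _))
      have h7 : 64 * (M : ℝ) * (2 * (I : ℝ)) ^ (1 / 4 : ℝ) ≤ 64 * (2 * N) * (2 * Real.sqrt L) := by
        apply mul_le_mul _ h6 (by positivity) (by positivity)
        linarith
      have h8 : 64 * (M : ℝ) * (2 * (I : ℝ)) ^ (1 / 4 : ℝ) / Real.log M ≤ (64 * (2 * N) * (2 * Real.sqrt L)) / L :=
        div_le_div₀ (by positivity) h7 hL0 h5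
      refine h8.trans (le_of_eq ?_)
      have h9 : L = Real.sqrt L * Real.sqrt L := (Real.mul_self_sqrt hL0.le).symm
      have h10 : 0 < Real.sqrt L := Real.sqrt_pos.2 hL0
      field_simp
      nlinarith
    have h5 : (((Icc 1 N).filter (fun n => ∀ p : ℕ, p.Prime → p ∣ n + h j₀ → ix p < I)).card : ℝ) ≤
        (((Icc 1 M).filter (fun m => ∀ p : ℕ, p.Prime → p ∣ m → ix p < I)).card : ℝ) := by exact_mod_cast h1
    linarith
  -- the union
  have hU := card_le_card (zcover h hinj j₀ N I hIH)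
  have hU2 : (((Icc 1 N).filter (fun n => ∀ i, I ≤ i → ¬ odd2 i (Q h n))).card : ℝ) ≤
      ∑ j : Fin k, (((Icc 1 N).filter (fun n => ∃ m, I + 1 ≤ m ∧ m ^ 2 ∣ n + h j)).card : ℝ) +
      ∑ z : Fin k × Fin k, (((Icc 1 N).filter (fun n => ∃ i, I ≤ i ∧ pa i ∣ n + h z.1 ∧ pb i ∣ n + h z.2)).card : ℝ) +
      (((Icc 1 N).filter (fun n => ∀ p : ℕ, p.Prime → p ∣ n + h j₀ → ix p < I)).card : ℝ) := by
    have q1 := (card_union_le _ _).trans (Nat.add_le_add_right (card_union_le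
      (univ.biUnion (fun j : Fin k => (Icc 1 N).filter (fun n => ∃ m, I + 1 ≤ m ∧ m ^ 2 ∣ n + h j)))
      (univ.biUnion (fun z : Fin k × Fin k => (Icc 1 N).filter (fun n => ∃ i, I ≤ i ∧ pa i ∣ n + h z.1 ∧ pb i ∣ n + h z.2))))
      ((Icc 1 N).filter (fun n => ∀ p : ℕ, p.Prime → p ∣ n + h j₀ → ix p < I)).card)
    have q2 := (card_biUnion_le (s := (univ : Finset (Fin k)))
      (t := fun j : Fin k => (Icc 1 N).filter (fun n => ∃ m, I + 1 ≤ m ∧ m ^ 2 ∣ n + h j)))
    have q3 := (card_biUnion_le (s := (univ : Finset (Fin k × Fin k)))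
      (t := fun z : Fin k × Fin k => (Icc 1 N).filter (fun n => ∃ i, I ≤ i ∧ pa i ∣ n + h z.1 ∧ pb i ∣ n + h z.2)))
    have q4 := hU.trans (q1.trans (Nat.add_le_add_right (Nat.add_le_add q2 q3) _))
    exact_mod_cast q4
  have hSA : ∑ j : Fin k, (((Icc 1 N).filter (fun n => ∃ m, I + 1 ≤ m ∧ m ^ 2 ∣ n + h j)).card : ℝ) ≤ k * (N * (2 / L)) := by
    refine (sum_le_sum fun j _ => hA j).trans (le_of_eq ?_)
    rw [sum_const, card_univ, Fintype.card_fin, nsmul_eq_mul]
  have hSB : ∑ z : Fin k × Fin k, (((Icc 1 N).filter (fun n => ∃ i, I ≤ i ∧ pa i ∣ n + h z.1 ∧ pb i ∣ n + h z.2)).card : ℝ) ≤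
      (k : ℝ) ^ 2 * (N * (19 / L)) := by
    refine (sum_le_sum fun z _ => hB z).trans (le_of_eq ?_)
    rw [sum_const, card_univ, Fintype.card_prod, Fintype.card_fin, nsmul_eq_mul]
    push_cast
    ring
  have hsL : 1 ≤ Real.sqrt L := by
    rw [show (1 : ℝ) = Real.sqrt 1 by simp]
    exact Real.sqrt_le_sqrt hLp
  have hsL0 : 0 < Real.sqrt L := by linarith
  have hinv : 1 / L ≤ 1 / Real.sqrt L := by
    apply one_div_le_one_div_of_le hsL0
    have h9 : L = Real.sqrt L * Real.sqrt L := (Real.mul_self_sqrt hL0.le).symm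
    nlinarith
  have hfin : (k : ℝ) * (N * (2 / L)) + (k : ℝ) ^ 2 * (N * (19 / L)) + (N * (4 / L) + N * (256 / Real.sqrt L)) ≤
      N * (C * (1 / Real.sqrt L)) := by
    have e1 : (k : ℝ) * (N * (2 / L)) + (k : ℝ) ^ 2 * (N * (19 / L)) + (N * (4 / L) + N * (256 / Real.sqrt L)) =
        N * ((2 * k + 19 * (k : ℝ) ^ 2 + 4) * (1 / L) + 256 * (1 / Real.sqrt L)) := by ring
    rw [e1]
    apply mul_le_mul_of_nonneg_left _ hN0.le
    have e2 : (2 * (k : ℝ) + 19 * (k : ℝ) ^ 2 + 4) * (1 / L) ≤ (2 * (k : ℝ) + 19 * (k : ℝ) ^ 2 + 4) * (1 / Real.sqrt L) :=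
      mul_le_mul_of_nonneg_left hinv (by positivity)
    have e3 : 0 ≤ 2 * (k : ℝ) ^ 2 * (1 / Real.sqrt L) := by positivity
    rw [hC]
    nlinarith
  have hlast : C * (1 / Real.sqrt L) ≤ ε := by
    rw [mul_one_div, div_le_iff₀ hsL0]
    have h1 : C / ε ≤ Real.sqrt L := Real.le_sqrt_of_sq_le hL1
    rw [div_le_iff₀ hε] at h1
    linarith
  have hlast2 := mul_le_mul_of_nonneg_left hlast hN0.le
  linarith

end Pool.Agent.Helper66.CW
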