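import Pool.Agent.Helper66.CW.Flip1
import Pool.Agent.Helper66.CW.Zset
import Pool.Agent.Helper12.CW.Poincare

/-!
# Correlation sums of random functions: the probability of a large value (CW project, MP_a499ba_nt)
-/

set_option autoImplicit false

namespace Pool.Agent.Helper66.CW

open Finset Filter Pool.Agent.Helper66.MB

theorem avg_zero {k : ℕ} (h : Fin k → ℕ) (n J I i : ℕ) (hi : I ≤ i) (hiJ : i < J) (ho : odd2 i (Q h n))
    (ω : ℕ → ℤˣ) :
    ∑ η : Fin J → ℤˣ, (GL.cm (sgn (fun j => if j < I then ω j else exd η j)) (Q h n) : ℝ) = 0 := by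
  classical
  set T : (Fin J → ℤˣ) → (Fin J → ℤˣ) := fun η => Function.update η ⟨i, hiJ⟩ (-η ⟨i, hiJ⟩) with hT
  have hTT : ∀ η, T (T η) = η := by
    intro η
    rw [hT]
    simp
  have h1 : ∀ η : Fin J → ℤˣ, (fun j => if j < I then ω j else exd (T η) j) =
      Function.update (fun j => if j < I then ω j else exd η j) i
        (-((fun j => if j < I then ω j else exd η j) i)) := by
    intro η
    funext j
    by_cases hj : j = i
    · subst hj
      rw [Function.update_self]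
      simp only [if_neg (not_lt.2 hi)]
      unfold exd
      rw [dif_pos hiJ, dif_pos hiJ, hT]
      simp
    · rw [Function.update_of_ne hj]
      by_cases hjI : j < I
      · simp only [if_pos hjI]
      · simp only [if_neg hjI]
        unfold exd
        by_cases hjJ : j < J
        · rw [dif_pos hjJ, dif_pos hjJ, hT]
          simp only
          rw [Function.update_of_ne]
          intro h2
          exact hj (congrArg Fin.val h2)
        · rw [dif_neg hjJ, dif_neg hjJ]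
  have h2 : ∀ η : Fin J → ℤˣ, (GL.cm (sgn (fun j => if j < I then ω j else exd (T η) j)) (Q h n) : ℝ) =
      -(GL.cm (sgn (fun j => if j < I then ω j else exd η j)) (Q h n) : ℝ) := by
    intro η
    rw [h1 η, cm_update, Odd.neg_one_pow ho]
    push_cast
    ring
  have h3 : ∑ η : Fin J → ℤˣ, (GL.cm (sgn (fun j => if j < I then ω j else exd (T η) j)) (Q h n) : ℝ) =
      ∑ η : Fin J → ℤˣ, (GL.cm (sgn (fun j => if j < I then ω j else exd η j)) (Q h n) : ℝ) :=
    (Equiv.sum_comp ⟨T, T, hTT, hTT⟩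
      (fun η : Fin J → ℤˣ => (GL.cm (sgn (fun j => if j < I then ω j else exd η j)) (Q h n) : ℝ)))
  simp only [h2] at h3
  rw [sum_neg_distrib] at h3
  linarith

open Classical in
theorem avg_le {k : ℕ} (h : Fin k → ℕ) (N J I : ℕ) (hJ : ∀ i, N + h i < J) (ω : ℕ → ℤˣ) :
    |(∑ η : Fin J → ℤˣ, cor (GL.cm (sgn (fun i => if i < I then ω i else exd η i))) h N) / 2 ^ J| ≤
      (((Icc 1 N).filter (fun n => ∀ i, I ≤ i → ¬ odd2 i (Q h n))).card : ℝ) := by
  simp only [cor_eq]
  rw [sum_comm, sum_div]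
  have hs : ∀ (ω : ℕ → ℤˣ) (m : ℕ), |(GL.cm (sgn ω) m : ℝ)| ≤ 1 := by
    intro ω m
    rcases GL.cm_sign (sgn ω) (sgn_mem ω) m with h1 | h1 <;> rw [h1] <;> simp
  have hcard : (Fintype.card (Fin J → ℤˣ) : ℝ) = 2 ^ J := by
    rw [Fintype.card_fun, Fintype.card_fin]
    simp
  have h1 : ∀ n ∈ Icc 1 N, |(∑ η : Fin J → ℤˣ,
      (GL.cm (sgn (fun i => if i < I then ω i else exd η i)) (Q h n) : ℝ)) / 2 ^ J| ≤
        if (∀ i, I ≤ i → ¬ odd2 i (Q h n)) then 1 else 0 := by
    intro n hn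
    split_ifs with hz
    · rw [abs_div, abs_of_pos (show (0 : ℝ) < 2 ^ J by positivity), div_le_one (by positivity)]
      refine (abs_sum_le_sum_abs _ _).trans ?_
      refine (sum_le_sum fun η _ => hs _ _).trans ?_
      rw [sum_const, card_univ, nsmul_eq_mul, mul_one, hcard]
    · push Not at hz
      obtain ⟨i, hi, ho⟩ := hz
      have hiJ : i < J := by
        by_contra hcon
        have hn1 := mem_Icc.1 hn
        have h3 : ∀ p : ℕ, p.Prime → i < p → (Q h n).factorization p = 0 := by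
          intro p hp hip
          apply Nat.factorization_eq_zero_of_not_dvd
          unfold Q
          rw [Prime.dvd_finsetProd_iff (Nat.Prime.prime hp)]
          rintro ⟨j, -, hj⟩
          have h4 := Nat.le_of_dvd (by omega) hj
          have h5 := hJ j
          omega
        have h6 := lt_pa i
        have h7 := pa_lt_pb i
        unfold odd2 at ho
        rw [h3 _ (pa_prime i) (by omega), h3 _ (pb_prime i) (by omega)] at ho
        simp at ho
      rw [avg_zero h n J I i hi hiJ ho ω]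
      simp
  refine (abs_sum_le_sum_abs _ _).trans ((sum_le_sum h1).trans (le_of_eq ?_))
  rw [sum_boole]

theorem sum_inv_sq (I J : ℕ) (hI : 1 ≤ I) : ∑ i ∈ Ico I J, (1 : ℝ) / ((i : ℝ) + 1) ^ 2 ≤ 1 / (I : ℝ) := by
  rcases le_total J I with h | h
  · rw [Ico_eq_empty_of_le h, sum_empty]
    positivity
  · have h1 : ∑ i ∈ Ico I J, (1 : ℝ) / ((i : ℝ) + 1) ^ 2 ≤ 1 / (I : ℝ) - 1 / (J : ℝ) := by
      induction J, h using Nat.le_induction with
      | base => simp
      | succ J hJ ih =>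
        rw [sum_Ico_succ_top hJ]
        have hJ0 : (0 : ℝ) < J := by
          have : 1 ≤ J := hI.trans hJ
          exact_mod_cast this
        have h2 : 1 / ((J : ℝ) + 1) ^ 2 ≤ 1 / (J : ℝ) - 1 / ((J : ℝ) + 1) := by
          rw [div_sub_div _ _ hJ0.ne' (by positivity), div_le_div_iff₀ (by positivity) (by positivity)]
          nlinarith
        push_cast
        linarith
    have h2 : (0 : ℝ) ≤ 1 / (J : ℝ) := by positivity
    linarith

theorem chebyshev {k : ℕ} (hk : 2 ≤ k) (h : Fin k → ℕ) (hinj : Function.Injective h) (ε : ℝ) (hε : 0 < ε) :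
    ∃ C : ℝ, 0 ≤ C ∧ ∀ N J : ℕ, 2 ≤ N → (∀ i, N + h i < J) →
      fr J (fun ω => ¬ |cor (GL.cm (sgn ω)) h N| ≤ ε * N) ≤ C / Real.log N ^ 2 := by
  classical
  obtain ⟨N₁, hN₁⟩ := zset (by omega) h hinj (ε / 2) (by positivity)
  set H : ℝ := ∑ j, (h j : ℝ) with hH
  have hH0 : 0 ≤ H := sum_nonneg fun _ _ => Nat.cast_nonneg _
  set C₁ : ℝ := 16 * (k : ℝ) ^ 2 * (1 + H) ^ 2 / ε ^ 2 with hC₁
  have hC₁0 : 0 ≤ C₁ := by positivity
  refine ⟨C₁ + Real.log N₁ ^ 2, by positivity, fun N J hN hJ => ?_⟩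
  have hN2 : (2 : ℝ) ≤ N := by exact_mod_cast hN
  have hlog : 0 < Real.log N := Real.log_pos (by linarith)
  have hfr1 : fr J (fun ω => ¬ |cor (GL.cm (sgn ω)) h N| ≤ ε * N) ≤ 1 := by
    unfold fr
    rw [div_le_one (by positivity)]
    refine (Nat.cast_le.2 (card_le_univ _)).trans (le_of_eq ?_)
    rw [Fintype.card_fun, Fintype.card_fin]
    simp
  by_cases hcase : N₁ ≤ N
  · set I : ℕ := ⌈Real.log N ^ 2⌉₊ with hI
    have hI1 : Real.log N ^ 2 ≤ I := Nat.le_ceil _
    have hI2 : (I : ℝ) ≤ Real.log N ^ 2 + 1 := (Nat.ceil_lt_add_one (by positivity)).le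
    have hI0 : 1 ≤ I := Nat.one_le_ceil_iff.2 (by positivity)
    have hz := hN₁ N I hcase hI1 hI2
    have hN0 : (0 : ℝ) < N := by linarith
    have hp := Pool.Agent.Helper12.CW.poincare J I (fun ω => cor (GL.cm (sgn ω)) h N) (fun ω ω' h1 => cor_local h N J hJ ω ω' h1)
      (fun i => 4 * k * ((N : ℝ) + H) / (i + 1)) (fun i => by positivity)
      (fun i _ _ ω => by have := cor_update h N i ω; push_cast at this; exact this) (ε / 2 * N) (fun ω => (avg_le h N J I hJ ω).trans hz)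
      (ε / 2 * N) (by positivity)
    have e1 : ε / 2 * (N : ℝ) + ε / 2 * N = ε * N := by ring
    rw [e1] at hp
    refine hp.trans ?_
    have e2 : ∑ i ∈ Ico I J, (4 * (k : ℝ) * ((N : ℝ) + H) / (i + 1)) ^ 2 =
        16 * (k : ℝ) ^ 2 * ((N : ℝ) + H) ^ 2 * ∑ i ∈ Ico I J, 1 / ((i : ℝ) + 1) ^ 2 := by
      rw [mul_sum]
      refine sum_congr rfl fun i _ => ?_
      field_simp
      ring
    rw [e2]
    have e3 := sum_inv_sq I J hI0
    have e4 : ((N : ℝ) + H) ^ 2 ≤ (1 + H) ^ 2 * N ^ 2 := by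
      rw [← mul_pow]
      apply pow_le_pow_left₀ (by positivity)
      nlinarith
    have hIR : (0 : ℝ) < I := by exact_mod_cast hI0
    have e5 : 16 * (k : ℝ) ^ 2 * ((N : ℝ) + H) ^ 2 * ∑ i ∈ Ico I J, 1 / ((i : ℝ) + 1) ^ 2 ≤
        16 * (k : ℝ) ^ 2 * ((1 + H) ^ 2 * N ^ 2) * (1 / I) := by
      apply mul_le_mul _ e3 (sum_nonneg fun _ _ => by positivity) (by positivity)
      exact mul_le_mul_of_nonneg_left e4 (by positivity)
    have e6 : (16 * (k : ℝ) ^ 2 * ((1 + H) ^ 2 * N ^ 2) * (1 / I)) / (4 * (ε / 2 * N) ^ 2) = C₁ / I := by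
      rw [hC₁]
      field_simp
      ring
    have e7 : C₁ / I ≤ C₁ / Real.log N ^ 2 := div_le_div_of_nonneg_left hC₁0 (by positivity) hI1
    have e8 : C₁ / Real.log N ^ 2 ≤ (C₁ + Real.log N₁ ^ 2) / Real.log N ^ 2 :=
      div_le_div_of_nonneg_right (by nlinarith [sq_nonneg (Real.log N₁)]) (by positivity)
    calc _ ≤ (16 * (k : ℝ) ^ 2 * ((1 + H) ^ 2 * N ^ 2) * (1 / I)) / (4 * (ε / 2 * N) ^ 2) :=
          div_le_div_of_nonneg_right e5 (by positivity)
      _ = C₁ / I := e6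
      _ ≤ _ := e7.trans e8
  · refine hfr1.trans ?_
    rw [le_div_iff₀ (by positivity), one_mul]
    have h1 : Real.log N ≤ Real.log N₁ := Real.log_le_log (by linarith) (by exact_mod_cast (not_le.1 hcase).le)
    have h2 : Real.log N ^ 2 ≤ Real.log N₁ ^ 2 := pow_le_pow_left₀ hlog.le h1 2
    linarith

end Pool.Agent.Helper66.CW
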