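import Pool.Agent.Helper66.MB.Exist
import Pool.Agent.Helper66.GL.CmB

/-!
# Chowla's conjecture for the functions of the joint class theorem (MP_a499ba_nt): definitions
-/

set_option autoImplicit false

namespace Pool.Agent.Helper66.CW

open Finset Filter Pool.Agent.Helper66.MB

/-- The correlation sum of `g` with the shifts `h i`, over `1 ≤ n ≤ N`. -/
noncomputable def cor (g : ℕ → ℤ) {k : ℕ} (h : Fin k → ℕ) (N : ℕ) : ℝ :=
  ∑ n ∈ Icc 1 N, ∏ i, (g (n + h i) : ℝ)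

/-- The correlation sum twisted by `e(n x)`. -/
noncomputable def corr (g : ℕ → ℤ) {k : ℕ} (h : Fin k → ℕ) (N : ℕ) (x : ℝ) : ℂ :=
  ∑ n ∈ Icc 1 N, (∏ i, (g (n + h i) : ℂ)) * Complex.exp (2 * Real.pi * Complex.I * n * x)

/-- All correlation sums of order at least two are `o(N)`. -/
def Ch2 (g : ℕ → ℤ) : Prop :=
  ∀ k : ℕ, 2 ≤ k → ∀ h : Fin k → ℕ, Function.Injective h → ∀ ε : ℝ, 0 < ε →
    ∃ N₀ : ℕ, ∀ N : ℕ, N₀ ≤ N → |cor g h N| ≤ ε * N

/-- All correlation sums are `o(N)`, uniformly in the additive twist. -/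
def ChT (g : ℕ → ℤ) : Prop :=
  ∀ k : ℕ, 1 ≤ k → ∀ h : Fin k → ℕ, Function.Injective h → ∀ ε : ℝ, 0 < ε →
    ∃ N₀ : ℕ, ∀ N : ℕ, N₀ ≤ N → ∀ x : ℝ, ‖corr g h N x‖ ≤ ε * N

/-- The exponents of the two primes of the pair `i` in `m` have an odd sum. -/
def odd2 (i m : ℕ) : Prop := Odd (m.factorization (pa i) + m.factorization (pb i))

/-- The product of the `n + h i`. -/
def Q {k : ℕ} (h : Fin k → ℕ) (n : ℕ) : ℕ := ∏ i, (n + h i)

end Pool.Agent.Helper66.CW
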