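import Pool.Agent.Helper66.CW.Defs

/-!
# The dependence of the correlation sums on one sign (CW project, MP_a499ba_nt)
-/

set_option autoImplicit false

namespace Pool.Agent.Helper66.CW

open Finset Filter Pool.Agent.Helper66.MB

theorem sgn_congr (ω ω' : ℕ → ℤˣ) (p : ℕ) (h : ω (ix p) = ω' (ix p)) : sgn ω p = sgn ω' p := by
  unfold sgn
  unfold ix at h
  rw [h]

theorem ix_le (p : ℕ) : ix p ≤ p := by
  unfold ix
  have := Nat.count_le (p := Nat.Prime) (n := p)
  omega

theorem sgn_update (ω : ℕ → ℤˣ) (i : ℕ) {p : ℕ} (hp : p.Prime) :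
    sgn (Function.update ω i (-ω i)) p = (if p = pa i ∨ p = pb i then -1 else 1) * sgn ω p := by
  by_cases h : p = pa i ∨ p = pb i
  · rw [if_pos h]
    rcases h with rfl | rfl
    · rw [sgn_pa, sgn_pa, Function.update_self]
      push_cast
      ring
    · rw [sgn_pb, sgn_pb, Function.update_self]
      push_cast
      ring
  · rw [if_neg h, one_mul]
    apply sgn_congr
    rw [Function.update_of_ne]
    intro hi
    apply h
    obtain ⟨j, hj⟩ := prime_cases hp
    have : j = i := by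
      rcases hj with rfl | rfl
      · rwa [ix_pa] at hi
      · unfold ix at hi
        rw [count_pb] at hi
        omega
    rwa [this] at hj

theorem cm_update (ω : ℕ → ℤˣ) (i m : ℕ) :
    GL.cm (sgn (Function.update ω i (-ω i))) m =
      (-1) ^ (m.factorization (pa i) + m.factorization (pb i)) * GL.cm (sgn ω) m := by
  unfold GL.cm Finsupp.prod
  have h1 : ∀ p ∈ m.factorization.support, sgn (Function.update ω i (-ω i)) p ^ m.factorization p =
      (if p = pa i ∨ p = pb i then (-1 : ℤ) ^ m.factorization p else 1) * sgn ω p ^ m.factorization p := by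
    intro p hp
    rw [sgn_update ω i (Nat.prime_of_mem_primeFactors hp), mul_pow]
    congr 1
    split_ifs <;> simp
  rw [prod_congr rfl h1, prod_mul_distrib]
  congr 1
  rw [pow_add]
  have h2 : ∀ p ∈ m.factorization.support, (if p = pa i ∨ p = pb i then (-1 : ℤ) ^ m.factorization p else 1) =
      (if p = pa i then (-1 : ℤ) ^ m.factorization p else 1) * (if p = pb i then (-1 : ℤ) ^ m.factorization p else 1) := by
    intro p _
    by_cases h3 : p = pa i
    · have h4 : p ≠ pb i := by rw [h3]; exact pa_ne_pb i i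
      simp [h3, pa_ne_pb i i]
    · simp [h3]
  rw [prod_congr rfl h2, prod_mul_distrib]
  congr 1
  · rw [prod_ite_eq' m.factorization.support (pa i)]
    split_ifs with h5
    · rfl
    · rw [Finsupp.notMem_support_iff.1 h5, pow_zero]
  · rw [prod_ite_eq' m.factorization.support (pb i)]
    split_ifs with h5
    · rfl
    · rw [Finsupp.notMem_support_iff.1 h5, pow_zero]

theorem cm_congr' (ω ω' : ℕ → ℤˣ) (J m : ℕ) (hm : m < J) (h : ∀ i, i < J → ω i = ω' i) :
    GL.cm (sgn ω) m = GL.cm (sgn ω') m := by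
  unfold GL.cm Finsupp.prod
  refine prod_congr rfl fun p hp => ?_
  have h1 : p ≤ m := Nat.le_of_mem_primeFactors hp
  show sgn ω p ^ m.factorization p = sgn ω' p ^ m.factorization p
  rw [sgn_congr ω ω' p (h _ (lt_of_le_of_lt ((ix_le p).trans h1) hm))]

theorem prod_cm {k : ℕ} (f : ℕ → ℤ) (h : Fin k → ℕ) (n : ℕ) (hn : 1 ≤ n) :
    ∏ i, GL.cm f (n + h i) = GL.cm f (Q h n) := by
  classical
  unfold Q
  have : ∀ s : Finset (Fin k), ∏ i ∈ s, GL.cm f (n + h i) = GL.cm f (∏ i ∈ s, (n + h i)) := by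
    intro s
    induction s using Finset.induction_on with
    | empty => simp [GL.cm]
    | insert a s ha ih =>
      rw [prod_insert ha, prod_insert ha, ih, GL.cm_mul]
      · omega
      · exact (prod_pos fun i _ => by omega).ne'
  exact this univ

theorem cor_eq {k : ℕ} (f : ℕ → ℤ) (h : Fin k → ℕ) (N : ℕ) :
    cor (GL.cm f) h N = ∑ n ∈ Icc 1 N, (GL.cm f (Q h n) : ℝ) := by
  unfold cor
  refine sum_congr rfl fun n hn => ?_
  rw [← prod_cm f h n (mem_Icc.1 hn).1]
  push_cast
  rfl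

theorem cor_local {k : ℕ} (h : Fin k → ℕ) (N J : ℕ) (hJ : ∀ i, N + h i < J) (ω ω' : ℕ → ℤˣ)
    (hω : ∀ i, i < J → ω i = ω' i) : cor (GL.cm (sgn ω)) h N = cor (GL.cm (sgn ω')) h N := by
  unfold cor
  refine sum_congr rfl fun n hn => ?_
  refine prod_congr rfl fun i _ => ?_
  have h1 := (mem_Icc.1 hn).2
  rw [cm_congr' ω ω' J (n + h i) (by have := hJ i; omega) hω]

/-- The number of `n ≤ N` with `d ∣ n + a`. -/
theorem card_dvd (N a d : ℕ) (hd : 0 < d) :
    (((Icc 1 N).filter (fun n => d ∣ n + a)).card : ℝ) ≤ ((N : ℝ) + a) / d := by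
  have h1 : ((Icc 1 N).filter (fun n => d ∣ n + a)).card ≤ (N + a) / d := by
    have h2 : ((Icc 1 N).filter (fun n => d ∣ n + a)).card ≤ (Icc 1 ((N + a) / d)).card := by
      refine card_le_card_of_injOn (fun n => (n + a) / d) ?_ ?_
      · intro n hn
        have hn' := mem_filter.1 (mem_coe.1 hn)
        have h3 := mem_Icc.1 hn'.1
        rw [mem_coe, mem_Icc]
        constructor
        · rw [Nat.one_le_div_iff hd]
          exact Nat.le_of_dvd (by omega) hn'.2
        · exact Nat.div_le_div_right (by omega)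
      · intro n hn n' hn' h4
        have h5 := (mem_filter.1 (mem_coe.1 hn)).2
        have h6 := (mem_filter.1 (mem_coe.1 hn')).2
        have h7 : (n + a) / d = (n' + a) / d := h4
        have h8 := Nat.div_mul_cancel h5
        have h9 := Nat.div_mul_cancel h6
        rw [h7] at h8
        omega
    simpa using h2
  refine (Nat.cast_le.2 h1).trans ?_
  refine Nat.cast_div_le.trans ?_
  push_cast
  exact le_refl _

theorem cor_update {k : ℕ} (h : Fin k → ℕ) (N i : ℕ) (ω : ℕ → ℤˣ) :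
    |cor (GL.cm (sgn (Function.update ω i (-ω i)))) h N - cor (GL.cm (sgn ω)) h N| ≤
      4 * k * ((N : ℝ) + ∑ j, h j) / (i + 1) := by
  classical
  rw [cor_eq, cor_eq, ← sum_sub_distrib]
  set B : Finset ℕ := univ.biUnion (fun j : Fin k => (Icc 1 N).filter (fun n => pa i ∣ n + h j) ∪
    (Icc 1 N).filter (fun n => pb i ∣ n + h j)) with hB
  have h0 : ∀ n ∈ Icc 1 N, n ∉ B → (GL.cm (sgn (Function.update ω i (-ω i))) (Q h n) : ℝ) - GL.cm (sgn ω) (Q h n) = 0 := by
    intro n hn hnB
    rw [cm_update]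
    have h1 : ∀ p : ℕ, p.Prime → (p = pa i ∨ p = pb i) → (Q h n).factorization p = 0 := by
      intro p hp hpi
      apply Nat.factorization_eq_zero_of_not_dvd
      unfold Q
      rw [Prime.dvd_finsetProd_iff (Nat.Prime.prime hp)]
      rintro ⟨j, -, hj⟩
      apply hnB
      rw [hB, mem_biUnion]
      refine ⟨j, mem_univ _, ?_⟩
      rw [mem_union, mem_filter, mem_filter]
      rcases hpi with rfl | rfl
      · exact Or.inl ⟨hn, hj⟩
      · exact Or.inr ⟨hn, hj⟩
    rw [h1 _ (pa_prime i) (Or.inl rfl), h1 _ (pb_prime i) (Or.inr rfl)]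
    simp
  have hs : ∀ (ω : ℕ → ℤˣ) (m : ℕ), |(GL.cm (sgn ω) m : ℝ)| ≤ 1 := by
    intro ω m
    rcases GL.cm_sign (sgn ω) (sgn_mem ω) m with h1 | h1 <;> rw [h1] <;> simp
  have h1 : |∑ n ∈ Icc 1 N, ((GL.cm (sgn (Function.update ω i (-ω i))) (Q h n) : ℝ) - GL.cm (sgn ω) (Q h n))| ≤
      ∑ n ∈ Icc 1 N, if n ∈ B then (2 : ℝ) else 0 := by
    refine (abs_sum_le_sum_abs _ _).trans (sum_le_sum fun n hn => ?_)
    split_ifs with hnB
    · refine (abs_sub _ _).trans ?_
      have h2 := hs (Function.update ω i (-ω i)) (Q h n)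
      have h3 := hs ω (Q h n)
      linarith
    · rw [h0 n hn hnB, abs_zero]
  refine h1.trans ?_
  rw [← sum_filter, sum_const, nsmul_eq_mul]
  have h2 : (((Icc 1 N).filter (fun n => n ∈ B)).card : ℝ) ≤ (B.card : ℝ) := by
    exact_mod_cast card_le_card fun n hn => (mem_filter.1 hn).2
  have hi0 : (0 : ℝ) < (i : ℝ) + 1 := by positivity
  have hH : ∀ j : Fin k, (h j : ℝ) ≤ ∑ j, (h j : ℝ) := fun j =>
    single_le_sum (f := fun j => (h j : ℝ)) (fun _ _ => Nat.cast_nonneg _) (mem_univ j)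
  have hd : ∀ (j : Fin k) (d : ℕ), i + 1 ≤ d → (((Icc 1 N).filter (fun n => d ∣ n + h j)).card : ℝ) ≤
      ((N : ℝ) + ∑ j, (h j : ℝ)) / (i + 1) := by
    intro j d hd
    refine (card_dvd N (h j) d (by omega)).trans ?_
    have hd' : ((i : ℝ) + 1) ≤ d := by exact_mod_cast hd
    have h3 := hH j
    have h4 : (0 : ℝ) ≤ h j := Nat.cast_nonneg _
    have h5 : (0 : ℝ) ≤ N := Nat.cast_nonneg _
    exact div_le_div₀ (by linarith) (by linarith) hi0 hd'
  have hpa : i + 1 ≤ pa i := by have := lt_pa i; omega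
  have hpb : i + 1 ≤ pb i := by have := pa_lt_pb i; omega
  have h3 : (B.card : ℝ) ≤ ∑ j : Fin k, 2 * (((N : ℝ) + ∑ j, (h j : ℝ)) / (i + 1)) := by
    have h4 : (B.card : ℝ) ≤ ∑ j : Fin k, ((((Icc 1 N).filter (fun n => pa i ∣ n + h j)) ∪
        ((Icc 1 N).filter (fun n => pb i ∣ n + h j))).card : ℝ) := by
      exact_mod_cast card_biUnion_le
    refine h4.trans (sum_le_sum fun j _ => ?_)
    have h5 : ((((Icc 1 N).filter (fun n => pa i ∣ n + h j)) ∪
        ((Icc 1 N).filter (fun n => pb i ∣ n + h j))).card : ℝ) ≤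
        (((Icc 1 N).filter (fun n => pa i ∣ n + h j)).card : ℝ) + (((Icc 1 N).filter (fun n => pb i ∣ n + h j)).card : ℝ) := by
      exact_mod_cast card_union_le _ _
    have h6 := hd j _ hpa
    have h7 := hd j _ hpb
    linarith
  rw [sum_const, card_univ, Fintype.card_fin, nsmul_eq_mul] at h3
  have h8 : 4 * (k : ℝ) * ((N : ℝ) + ∑ j, (h j : ℝ)) / (i + 1) = (k * (2 * (((N : ℝ) + ∑ j, (h j : ℝ)) / (i + 1)))) * 2 := by
    ring
  push_cast
  rw [h8]
  linarith

end Pool.Agent.Helper66.CW
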