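import Mathlib

/-!
# Sparse sets have a convergent sum of reciprocals (CW project, MP_a499ba_nt)
-/

set_option autoImplicit false

namespace Pool.Agent.Helper66.CW

open Finset

open Classical in
theorem summable_sparse (R : ℕ → Prop) (C : ℝ) (hC : 0 ≤ C)
    (h : ∀ y : ℕ, (((Icc 1 y).filter R).card : ℝ) ≤ C * (Real.sqrt y * Real.log y)) :
    Summable (fun n : ℕ => if R n then (1 : ℝ) / n else 0) := by
  have hnn : ∀ n : ℕ, 0 ≤ (if R n then (1 : ℝ) / n else 0) := by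
    intro n
    split_ifs <;> positivity
  set q : ℝ := (2 : ℝ) ^ (-(1 / 4) : ℝ) with hq
  have hq0 : 0 < q := by positivity
  have hq1 : q < 1 := by
    rw [hq]
    exact Real.rpow_lt_one_of_one_lt_of_neg (by norm_num) (by norm_num)
  have hbl : ∀ k : ℕ, ∑ n ∈ Ico (2 ^ k) (2 ^ (k + 1)), (if R n then (1 : ℝ) / n else 0) ≤ (8 * C) * q ^ k := by
    intro k
    have h1 : ∑ n ∈ Ico (2 ^ k) (2 ^ (k + 1)), (if R n then (1 : ℝ) / n else 0) ≤
        ∑ n ∈ (Icc 1 (2 ^ (k + 1))).filter R, 1 / (2 : ℝ) ^ k := by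
      rw [← sum_filter]
      refine (sum_le_sum (g := fun _ => 1 / (2 : ℝ) ^ k) fun n hn => ?_).trans ?_
      · have h2 := mem_Ico.1 (mem_filter.1 hn).1
        apply one_div_le_one_div_of_le (by positivity)
        exact_mod_cast h2.1
      · refine sum_le_sum_of_subset_of_nonneg ?_ fun _ _ _ => by positivity
        intro n hn
        rw [mem_filter, mem_Ico] at hn
        rw [mem_filter, mem_Icc]
        have : 1 ≤ 2 ^ k := Nat.one_le_two_pow
        exact ⟨⟨by omega, by omega⟩, hn.2⟩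
    refine h1.trans ?_
    rw [sum_const, nsmul_eq_mul]
    have h2 := h (2 ^ (k + 1))
    have hy0 : (0 : ℝ) < ((2 ^ (k + 1) : ℕ) : ℝ) := by positivity
    have h3 : Real.log ((2 ^ (k + 1) : ℕ) : ℝ) ≤ ((2 ^ (k + 1) : ℕ) : ℝ) ^ (1 / 4 : ℝ) / (1 / 4) :=
      Real.log_le_rpow_div hy0.le (by norm_num)
    have h4 : Real.sqrt ((2 ^ (k + 1) : ℕ) : ℝ) * Real.log ((2 ^ (k + 1) : ℕ) : ℝ) ≤
        4 * ((2 ^ (k + 1) : ℕ) : ℝ) ^ (3 / 4 : ℝ) := by
      have h5 : ((2 ^ (k + 1) : ℕ) : ℝ) ^ (3 / 4 : ℝ) =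
          Real.sqrt ((2 ^ (k + 1) : ℕ) : ℝ) * ((2 ^ (k + 1) : ℕ) : ℝ) ^ (1 / 4 : ℝ) := by
        rw [Real.sqrt_eq_rpow, ← Real.rpow_add hy0]
        norm_num
      rw [h5]
      have h6 := mul_le_mul_of_nonneg_left h3 (Real.sqrt_nonneg ((2 ^ (k + 1) : ℕ) : ℝ))
      linarith
    have h7 : ((2 ^ (k + 1) : ℕ) : ℝ) ^ (3 / 4 : ℝ) ≤ 2 * ((2 : ℝ) ^ k * q ^ k) := by
      have h8 : ((2 ^ (k + 1) : ℕ) : ℝ) ^ (3 / 4 : ℝ) = (2 : ℝ) ^ ((3 / 4 : ℝ) * (k + 1)) := by
        push_cast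
        rw [← Real.rpow_natCast, ← Real.rpow_mul (by norm_num)]
        congr 1
        push_cast
        ring
      have h9 : 2 * ((2 : ℝ) ^ k * q ^ k) = (2 : ℝ) ^ (1 + ((k : ℝ) + (-(1 / 4)) * k)) := by
        rw [hq, ← Real.rpow_natCast (2 : ℝ) k, ← Real.rpow_natCast ((2 : ℝ) ^ (-(1 / 4) : ℝ)) k,
          ← Real.rpow_mul (by norm_num), Real.rpow_add (by norm_num), Real.rpow_add (by norm_num),
          Real.rpow_one]
      rw [h8, h9]
      apply Real.rpow_le_rpow_of_exponent_le (by norm_num)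
      linarith
    have h10 : (((Icc 1 (2 ^ (k + 1))).filter R).card : ℝ) ≤ C * (8 * ((2 : ℝ) ^ k * q ^ k)) := by
      refine h2.trans (mul_le_mul_of_nonneg_left ?_ hC)
      linarith
    calc (((Icc 1 (2 ^ (k + 1))).filter R).card : ℝ) * (1 / (2 : ℝ) ^ k)
        ≤ (C * (8 * ((2 : ℝ) ^ k * q ^ k))) * (1 / (2 : ℝ) ^ k) :=
          mul_le_mul_of_nonneg_right h10 (by positivity)
      _ = _ := by field_simp
  have hpart : ∀ K : ℕ, ∑ n ∈ range (2 ^ K), (if R n then (1 : ℝ) / n else 0) ≤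
      ∑ k ∈ range K, (8 * C) * q ^ k := by
    intro K
    induction K with
    | zero =>
      simp
    | succ K ih =>
      rw [sum_range_succ, range_eq_Ico, ← sum_Ico_consecutive _ (Nat.zero_le (2 ^ K)) (Nat.pow_le_pow_right (by norm_num) (Nat.le_succ K)),
        ← range_eq_Ico]
      exact add_le_add ih (hbl K)
  refine summable_of_sum_range_le (c := (8 * C) * (1 - q)⁻¹) hnn fun n => ?_
  have h1 : ∑ i ∈ range n, (if R i then (1 : ℝ) / i else 0) ≤ ∑ i ∈ range (2 ^ n), (if R i then (1 : ℝ) / i else 0) :=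
    sum_le_sum_of_subset_of_nonneg (range_subset_range.2 Nat.lt_two_pow_self.le) fun _ _ _ => hnn _
  refine h1.trans ((hpart n).trans ?_)
  rw [← mul_sum]
  refine mul_le_mul_of_nonneg_left ?_ (by positivity)
  rw [← tsum_geometric_of_lt_one hq0.le hq1]
  exact (summable_geometric_of_lt_one hq0.le hq1).sum_le_tsum _ fun _ _ => by positivity

end Pool.Agent.Helper66.CW
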