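import Pool.Agent.Helper66.CW.Glue
import Pool.Agent.Helper66.JC.LimD
import Pool.Agent.Helper66.CW.Cheb
import Pool.Agent.Helper99.CW.B4
import Pool.Agent.Helper52.CW.Vdc
import Pool.Agent.Helper52.CW.Flips

/-!
# The joint limit set for functions which satisfy Chowla's conjecture (CW project, MP_a499ba_nt)
-/

set_option autoImplicit false

namespace Pool.Agent.Helper66.CW

open Finset Filter Pool.Agent.Helper92.GB Pool.Agent.Helper66.MB Pool.Agent.Helper66.JC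

/-- The base function. -/
theorem base3 : ∃ ω : ℕ → ℤˣ, PS (sgn ω) ∧ JC.ClG (Mf (sgn ω)) ∧ JC.ClG (GL.Lf (sgn ω)) ∧
    Ch2 (GL.cm (sgn ω)) :=
  base3_of fun hk h hinj ε hε => chebyshev hk h hinj ε hε

/-- `JC.glueD` for the new base function. -/
theorem glueS {φ : ℝ → ℝ} (hφ : Adm φ) (u v b δ : ℕ → ℝ) (huv : ∀ j, u j ^ 2 + v j ^ 2 = 1) (hb : ∀ j, 0 < b j)
    (hδ : ∀ j, 0 < δ j) (N₀ : ℕ) (s : ℕ → ℤ) (hs : ∀ n, s n = 1 ∨ s n = -1) :
    ∃ (f : ℕ → ℤ) (X : ℕ → ℕ), (∀ n, f n = 1 ∨ f n = -1) ∧ (∀ p : ℕ, p.Prime → p ≤ N₀ → f p = s p) ∧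
      PS f ∧ StrictMono X ∧
      (∀ j x : ℕ, X j ≤ x → x < X (j + 1) →
        -(δ j * (Real.sqrt x * φ x)) ≤ comp (u j) (v j) f x ∧
        comp (u j) (v j) f x ≤ (b j + δ j) * (Real.sqrt x * φ x) ∧
        |comp (-v j) (u j) f x| ≤ δ j * (Real.sqrt x * φ x)) ∧
      (∀ j : ℕ, ∃ x : ℕ, X j ≤ x ∧ x < X (j + 1) ∧ (b j - δ j) * (Real.sqrt x * φ x) ≤ comp (u j) (v j) f x) ∧
      ChT (GL.cm f) := by
  classical
  obtain ⟨ω, hPS, hM, hL, hC⟩ := base3
  set S : Finset ℕ := (Icc 1 N₀).filter (fun p => p.Prime ∧ s p ≠ sgn ω p) with hS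
  have hSp : ∀ p ∈ S, p.Prime := fun p hp => (mem_filter.1 hp).2.1
  have hc1 : ChT (GL.cm (sgn ω)) := vdc _ (fun n => GL.cm_sign _ (sgn_mem ω) n) hC
  have hc2 : ChT (GL.cm (flipS (sgn ω) S)) := by
    refine flips (sgn ω) _ (sgn_mem ω) (flipS_sign (sgn_mem ω) S) ?_ hc1
    refine summable_of_ne_finset_zero (s := S) fun p hp => ?_
    rw [if_neg]
    rintro ⟨-, h⟩
    apply h
    unfold flipS
    rw [if_neg hp]
  obtain ⟨f, X, h1, h2, h3, h4, h5, h6, h7⟩ := glueD_genS hφ (flipS (sgn ω) S) (flipS_sign (sgn_mem ω) S)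
    (PS_flipS (sgn_mem ω) hPS S hSp) (sumOp_M.cl _ (sgn_mem ω) hM S) (sumOp_L.cl _ (sgn_mem ω) hL S)
    (ric_flipS _ (ric_base ω) S) u v b δ huv hb hδ N₀
  refine ⟨f, X, h1, fun p hp hpN => ?_, h3, h4, h5, h6, flips _ f (flipS_sign (sgn_mem ω) S) h1 h7 hc2⟩
  rw [h2 p hpN]
  unfold flipS
  by_cases hsp : s p = sgn ω p
  · rw [if_neg, hsp]
    rw [hS, mem_filter]
    rintro ⟨-, -, h⟩
    exact h hsp
  · rw [if_pos]
    · rcases hs p with h | h <;> rcases sgn_mem ω p with h' | h' <;> simp_all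
    · rw [hS, mem_filter, mem_Icc]
      exact ⟨⟨hp.one_lt.le, hpN⟩, hp, hsp⟩

theorem limS {φ : ℝ → ℝ} (hφ : Adm φ) (S : Set (ℝ × ℝ)) (hS : IsClosed S) (h0 : S.Nonempty)
    (hst : StarConvex ℝ (0 : ℝ × ℝ) S) (N₀ : ℕ) (s : ℕ → ℤ) (hs : ∀ n, s n = 1 ∨ s n = -1) :
    ∃ f : ℕ → ℤ, (∀ n, f n = 1 ∨ f n = -1) ∧ (∀ p : ℕ, p.Prime → p ≤ N₀ → f p = s p) ∧ PS f ∧ ChT (GL.cm f) ∧
      Tendsto (fun x : ℝ => Metric.infDist (VV φ f x) S) atTop (nhds 0) ∧
      ∀ z : ℝ × ℝ, MapClusterPt z atTop (VV φ f) ↔ z ∈ S := by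
  classical
  have : Nonempty S := h0.to_subtype
  set t : ℕ → ℝ × ℝ := fun k => (TopologicalSpace.denseSeq S k : ℝ × ℝ) with ht
  have htS : ∀ k, t k ∈ S := fun k => (TopologicalSpace.denseSeq S k).2
  have hdense : ∀ z ∈ S, ∀ ε : ℝ, 0 < ε → ∃ k, dist (t k) z < ε := by
    intro z hz ε hε
    obtain ⟨k, hk⟩ := (TopologicalSpace.denseRange_denseSeq S).exists_dist_lt ⟨z, hz⟩ hε
    refine ⟨k, ?_⟩
    rw [dist_comm]
    exact hk
  choose r u v hr huv h1 h2 using fun j : ℕ => polar (t j.unpair.1).1 (t j.unpair.1).2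
  obtain ⟨f, X, f1, f2, f3, hX, hup, hpt, hch⟩ := glueS hφ u v (fun j => r j + 1 / ((j : ℝ) + 1))
    (fun j => 1 / (2 * ((j : ℝ) + 1))) huv (fun j => by have := hr j; positivity) (fun j => by positivity) N₀ s hs
  obtain ⟨x₁, hx₁⟩ := hφ.mono
  obtain ⟨x₂, hx₂⟩ := (hφ.top.eventually_gt_atTop 0).exists_forall_of_atTop
  have hXle : ∀ j, j ≤ X j := fun j => hX.le_apply
  -- the windows
  have hwin : ∀ j (x : ℝ), x₁ + 1 ≤ x → x₂ + 1 ≤ x → 1 ≤ x → X j ≤ ⌊x⌋₊ → ⌊x⌋₊ < X (j + 1) →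
      ∃ w ∈ S, dist (VV φ f x) w ≤ 3 / ((j : ℝ) + 1) := by
    intro j x ha hb' hd hj1 hj2
    have hx0 : 0 < x := by linarith
    have hfl : x - 1 < (⌊x⌋₊ : ℝ) := Nat.sub_one_lt_floor x
    have hfl' : (⌊x⌋₊ : ℝ) ≤ x := Nat.floor_le hx0.le
    have hfl1 : 1 ≤ ⌊x⌋₊ := Nat.le_floor (by exact_mod_cast hd)
    obtain ⟨g1, g2, g3⟩ := hup j _ hj1 hj2
    set m := ⌊x⌋₊ with hm
    have hφx : 0 < φ x := hx₂ x (by linarith)
    have hφm : 0 < φ (m : ℝ) := hx₂ _ (by linarith)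
    have hsx : 0 < Real.sqrt x := Real.sqrt_pos.mpr hx0
    have hsm : 0 < Real.sqrt (m : ℝ) := Real.sqrt_pos.mpr (by exact_mod_cast hfl1)
    set D := Real.sqrt x * φ x with hD
    have hD0 : 0 < D := mul_pos hsx hφx
    set D' := Real.sqrt (m : ℝ) * φ (m : ℝ) with hD'
    have hD'0 : 0 < D' := mul_pos hsm hφm
    have hDD : D' ≤ D := mul_le_mul (Real.sqrt_le_sqrt hfl') (hx₁ _ _ (by linarith) hfl') hφm.le hsx.le
    have hj0 : (0 : ℝ) < (j : ℝ) + 1 := by positivity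
    have q1 : 0 < 1 / ((j : ℝ) + 1) := by positivity
    have q2 : 1 / (2 * ((j : ℝ) + 1)) = 1 / ((j : ℝ) + 1) / 2 := by field_simp
    rw [q2] at g1 g2 g3
    set η := 1 / ((j : ℝ) + 1) with hη
    -- the components divided by `D`
    have p1 : -(η / 2) ≤ comp (u j) (v j) f m / D := by
      rw [le_div_iff₀ hD0]
      have : η / 2 * D' ≤ η / 2 * D := mul_le_mul_of_nonneg_left hDD (by positivity)
      linarith
    have p2 : comp (u j) (v j) f m / D ≤ r j + 3 / 2 * η := by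
      rw [div_le_iff₀ hD0]
      have h3 : (r j + η + η / 2) * D' ≤ (r j + η + η / 2) * D :=
        mul_le_mul_of_nonneg_left hDD (by have := hr j; positivity)
      linarith
    have p3 : |comp (-v j) (u j) f m / D| ≤ η / 2 := by
      rw [abs_div, abs_of_pos hD0, div_le_iff₀ hD0]
      have : η / 2 * D' ≤ η / 2 * D := mul_le_mul_of_nonneg_left hDD (by positivity)
      linarith
    obtain ⟨θ, t1, t2, t3⟩ := seg_near (r j) (comp (u j) (v j) f m / D) (3 / 2 * η) (by positivity)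
      (by linarith) p2
    obtain ⟨d1, d2⟩ := dist_le (huv j) t3 p3
    refine ⟨θ • t j.unpair.1, ?_, ?_⟩
    · have := hst (htS j.unpair.1) (sub_nonneg.2 t2) t1 (by ring)
      simpa using this
    · have e1 : (VV φ f x).1 = u j * (comp (u j) (v j) f m / D) - v j * (comp (-v j) (u j) f m / D) :=
        coord1 (huv j)
      have e2 : (VV φ f x).2 = v j * (comp (u j) (v j) f m / D) + u j * (comp (-v j) (u j) f m / D) :=
        coord2 (huv j)
      rw [Prod.dist_eq, max_le_iff, Real.dist_eq, Real.dist_eq, e1, e2]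
      have e3 : (θ • t j.unpair.1).1 = θ * r j * u j := by
        rw [Prod.smul_fst, smul_eq_mul, h1 j]; ring
      have e4 : (θ • t j.unpair.1).2 = θ * r j * v j := by
        rw [Prod.smul_snd, smul_eq_mul, h2 j]; ring
      rw [e3, e4]
      have e5 : 3 / 2 * η + η / 2 ≤ 3 / ((j : ℝ) + 1) := by
        rw [hη]
        have : 3 / 2 * (1 / ((j : ℝ) + 1)) + 1 / ((j : ℝ) + 1) / 2 = 2 / ((j : ℝ) + 1) := by field_simp; norm_num
        rw [this]
        exact div_le_div_of_nonneg_right (by norm_num) hj0.le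
      exact ⟨d1.trans e5, d2.trans e5⟩
  -- the points
  have hpts : ∀ j : ℕ, x₂ ≤ X j → 1 ≤ X j → ∃ x : ℝ, (X j : ℝ) ≤ x ∧
      dist (VV φ f x) (t j.unpair.1) ≤ 3 / ((j : ℝ) + 1) := by
    intro j ha hb
    obtain ⟨m, hm1, hm2, hm3⟩ := hpt j
    obtain ⟨g1, g2, g3⟩ := hup j m hm1 hm2
    have hXm : ((X j : ℕ) : ℝ) ≤ m := by exact_mod_cast hm1
    have hφm : 0 < φ (m : ℝ) := hx₂ _ (by linarith)
    have hm0 : (0 : ℝ) < m := by
      have : 1 ≤ m := hb.trans hm1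
      exact_mod_cast this
    have hsm : 0 < Real.sqrt (m : ℝ) := Real.sqrt_pos.mpr hm0
    set D := Real.sqrt (m : ℝ) * φ (m : ℝ) with hD
    have hD0 : 0 < D := mul_pos hsm hφm
    have hj0 : (0 : ℝ) < (j : ℝ) + 1 := by positivity
    have q1 : 0 < 1 / ((j : ℝ) + 1) := by positivity
    have q2 : 1 / (2 * ((j : ℝ) + 1)) = 1 / ((j : ℝ) + 1) / 2 := by field_simp
    rw [q2] at g1 g2 g3 hm3
    set η := 1 / ((j : ℝ) + 1) with hη
    have p1 : |comp (u j) (v j) f m / D - r j| ≤ 3 / 2 * η := by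
      rw [abs_le]
      constructor
      · have : r j + η - η / 2 ≤ comp (u j) (v j) f m / D := by
          rw [le_div_iff₀ hD0]
          exact hm3
        linarith
      · have : comp (u j) (v j) f m / D ≤ r j + η + η / 2 := by
          rw [div_le_iff₀ hD0]
          exact g2
        linarith
    have p3 : |comp (-v j) (u j) f m / D| ≤ η / 2 := by
      rw [abs_div, abs_of_pos hD0, div_le_iff₀ hD0]
      exact g3
    obtain ⟨d1, d2⟩ := dist_le (huv j) p1 p3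
    refine ⟨m, hXm, ?_⟩
    have e1 : (VV φ f m).1 = u j * (comp (u j) (v j) f m / D) - v j * (comp (-v j) (u j) f m / D) := by
      unfold VV
      rw [Nat.floor_natCast]
      exact coord1 (huv j)
    have e2 : (VV φ f m).2 = v j * (comp (u j) (v j) f m / D) + u j * (comp (-v j) (u j) f m / D) := by
      unfold VV
      rw [Nat.floor_natCast]
      exact coord2 (huv j)
    rw [Prod.dist_eq, max_le_iff, Real.dist_eq, Real.dist_eq, e1, e2, h1 j, h2 j]
    have e5 : 3 / 2 * η + η / 2 ≤ 3 / ((j : ℝ) + 1) := by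
      rw [hη]
      have : 3 / 2 * (1 / ((j : ℝ) + 1)) + 1 / ((j : ℝ) + 1) / 2 = 2 / ((j : ℝ) + 1) := by field_simp; norm_num
      rw [this]
      exact div_le_div_of_nonneg_right (by norm_num) hj0.le
    exact ⟨d1.trans e5, d2.trans e5⟩
  have hsmall : ∀ ε : ℝ, 0 < ε → ∃ J : ℕ, ∀ j : ℕ, J ≤ j → 3 / ((j : ℝ) + 1) < ε := by
    intro ε hε
    obtain ⟨J, hJ⟩ := exists_nat_gt (3 / ε)
    refine ⟨J, fun j hj => ?_⟩
    rw [div_lt_iff₀ hε] at hJ
    rw [div_lt_iff₀ (by positivity)]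
    have h3 : (J : ℝ) ≤ j := by exact_mod_cast hj
    nlinarith
  have hT : Tendsto (fun x : ℝ => Metric.infDist (VV φ f x) S) atTop (nhds 0) := by
    rw [Metric.tendsto_atTop]
    intro ε hε
    obtain ⟨J, hJ⟩ := hsmall ε hε
    refine ⟨max (max (X J : ℝ) (x₁ + 1)) (max (x₂ + 1) 1), fun x hx => ?_⟩
    have a1 : (X J : ℝ) ≤ x := (le_max_left _ _).trans ((le_max_left _ _).trans hx)
    have a2 : x₁ + 1 ≤ x := (le_max_right _ _).trans ((le_max_left _ _).trans hx)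
    have a3 : x₂ + 1 ≤ x := (le_max_left _ _).trans ((le_max_right _ _).trans hx)
    have a4 : 1 ≤ x := (le_max_right _ _).trans ((le_max_right _ _).trans hx)
    obtain ⟨j, hj, hj1, hj2⟩ := exists_bracket_h48 hX J ⌊x⌋₊ (Nat.le_floor a1)
    obtain ⟨w, hw, hd⟩ := hwin j x a2 a3 a4 hj1 hj2
    rw [Real.dist_eq, sub_zero, abs_of_nonneg Metric.infDist_nonneg]
    exact (Metric.infDist_le_dist_of_mem hw).trans_lt (hd.trans_lt (hJ j hj))
  refine ⟨f, f1, f2, f3, hch, hT, fun z => ⟨fun hz => ?_, fun hz => ?_⟩⟩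
  · rw [hS.mem_iff_infDist_zero h0]
    by_contra hne
    have hpos : 0 < Metric.infDist z S := lt_of_le_of_ne Metric.infDist_nonneg (Ne.symm hne)
    have hev : ∀ᶠ y in nhds z, Metric.infDist z S / 2 < Metric.infDist y S :=
      (Metric.continuous_infDist_pt S).continuousAt.eventually (lt_mem_nhds (half_lt_self hpos))
    have hfr := hz.frequently hev
    have hev2 : ∀ᶠ x : ℝ in atTop, Metric.infDist (VV φ f x) S < Metric.infDist z S / 2 :=
      hT.eventually (gt_mem_nhds (half_pos hpos))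
    obtain ⟨x, hx1, hx2⟩ := (hfr.and_eventually hev2).exists
    exact lt_asymm hx1 hx2
  · rw [Metric.nhds_basis_ball.mapClusterPt_iff_frequently]
    intro ε hε
    rw [frequently_atTop]
    intro A
    obtain ⟨k, hk⟩ := hdense z hz (ε / 2) (by positivity)
    obtain ⟨J, hJ⟩ := hsmall (ε / 2) (by positivity)
    obtain ⟨J', hJ'⟩ := exists_nat_ge (max A x₂)
    set j := Nat.pair k (max (max J J') 1) with hj
    have hjJ : max (max J J') 1 ≤ j := Nat.right_le_pair _ _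
    have hjX : (j : ℝ) ≤ X j := by exact_mod_cast hXle j
    have hJj : (J' : ℝ) ≤ j := by
      have : J' ≤ j := ((le_max_right _ _).trans (le_max_left _ _)).trans hjJ
      exact_mod_cast this
    have hk' : j.unpair.1 = k := by rw [hj, Nat.unpair_pair]
    obtain ⟨x, hx1, hx2⟩ := hpts j (by linarith [le_max_right A x₂])
      ((le_max_right _ _).trans (hjJ.trans (hXle j)))
    refine ⟨x, by linarith [le_max_left A x₂], ?_⟩
    rw [Metric.mem_ball]
    rw [hk'] at hx2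
    have h3 := hJ j (((le_max_left _ _).trans (le_max_left _ _)).trans hjJ)
    have h4 := dist_triangle (VV φ f x) (t k) z
    linarith


end Pool.Agent.Helper66.CW
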