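import Pool.Agent.Helper66.CW.Flip1

/-!
# Counting lemmas for the correlation sums (CW project, MP_a499ba_nt)
-/

set_option autoImplicit false

namespace Pool.Agent.Helper66.CW

open Finset Filter Pool.Agent.Helper66.MB

theorem sum_inv_sq' (I J : ℕ) (hI : 1 ≤ I) : ∑ i ∈ Ico I J, (1 : ℝ) / ((i : ℝ) + 1) ^ 2 ≤ 1 / (I : ℝ) := by
  rcases le_total J I with h | h
  · rw [Ico_eq_empty_of_le h, sum_empty]
    positivity
  · have h1 : ∑ i ∈ Ico I J, (1 : ℝ) / ((i : ℝ) + 1) ^ 2 ≤ 1 / (I : ℝ) - 1 / (J : ℝ) := by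
      induction J, h using Nat.le_induction with
      | base => simp
      | succ J hJ ih =>
        rw [sum_Ico_succ_top hJ]
        have hJ0 : (0 : ℝ) < J := by
          have : 1 ≤ J := hI.trans hJ
          exact_mod_cast this
        have h2 : 1 / ((J : ℝ) + 1) ^ 2 ≤ 1 / (J : ℝ) - 1 / ((J : ℝ) + 1) := by
          rw [div_sub_div _ _ hJ0.ne' (by positivity), div_le_div_iff₀ (by positivity) (by positivity)]
          nlinarith
        push_cast
        linarith
    have h2 : (0 : ℝ) ≤ 1 / (J : ℝ) := by positivity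
    linarith

open Classical in
theorem countA (N a I : ℕ) (hI : 1 ≤ I) :
    (((Icc 1 N).filter (fun n => ∃ m, I + 1 ≤ m ∧ m ^ 2 ∣ n + a)).card : ℝ) ≤ ((N : ℝ) + a) / I := by
  have hsub : (Icc 1 N).filter (fun n => ∃ m, I + 1 ≤ m ∧ m ^ 2 ∣ n + a) ⊆
      (Ico I (N + a)).biUnion (fun i => (Icc 1 N).filter (fun n => (i + 1) ^ 2 ∣ n + a)) := by
    intro n hn
    obtain ⟨h1, m, h2, h3⟩ := mem_filter.1 hn
    have h4 := mem_Icc.1 h1
    rw [mem_biUnion]
    refine ⟨m - 1, ?_, ?_⟩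
    · rw [mem_Ico]
      have h5 : m ^ 2 ≤ n + a := Nat.le_of_dvd (by omega) h3
      have h6 : m ≤ m ^ 2 := Nat.le_self_pow (by norm_num) m
      omega
    · rw [mem_filter]
      refine ⟨h1, ?_⟩
      rwa [show m - 1 + 1 = m by omega]
  have h1 : (((Icc 1 N).filter (fun n => ∃ m, I + 1 ≤ m ∧ m ^ 2 ∣ n + a)).card : ℝ) ≤
      ∑ i ∈ Ico I (N + a), (((Icc 1 N).filter (fun n => (i + 1) ^ 2 ∣ n + a)).card : ℝ) := by
    exact_mod_cast (card_le_card hsub).trans card_biUnion_le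
  refine h1.trans ?_
  have h2 : ∀ i ∈ Ico I (N + a), (((Icc 1 N).filter (fun n => (i + 1) ^ 2 ∣ n + a)).card : ℝ) ≤
      ((N : ℝ) + a) * (1 / ((i : ℝ) + 1) ^ 2) := by
    intro i _
    refine (card_dvd N a ((i + 1) ^ 2) (by positivity)).trans (le_of_eq ?_)
    push_cast
    rw [mul_one_div]
  refine (sum_le_sum h2).trans ?_
  rw [← mul_sum]
  refine (mul_le_mul_of_nonneg_left (sum_inv_sq' I (N + a) hI) (by positivity)).trans (le_of_eq ?_)
  rw [mul_one_div]

theorem card_classes (N d : ℕ) (S : Finset ℕ) (hS : ∀ n ∈ S, n ≤ N)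
    (h : ∀ n ∈ S, ∀ m ∈ S, n % d = m % d) : S.card ≤ N / d + 1 := by
  have h1 : S.card ≤ (range (N / d + 1)).card := by
    refine card_le_card_of_injOn (fun n => n / d) ?_ ?_
    · intro n hn
      rw [mem_coe, mem_range]
      have := Nat.div_le_div_right (c := d) (hS n (mem_coe.1 hn))
      exact Nat.lt_succ_of_le this
    · intro n hn m hm hnm
      have h2 := h n (mem_coe.1 hn) m (mem_coe.1 hm)
      have h3 : n / d = m / d := hnm
      rw [← Nat.div_add_mod n d, ← Nat.div_add_mod m d, h2, h3]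
  rwa [card_range] at h1

open Classical in
theorem countB (N a b I : ℕ) (hI : 1 ≤ I) :
    (((Icc 1 N).filter (fun n => ∃ i, I ≤ i ∧ pa i ∣ n + a ∧ pb i ∣ n + b)).card : ℝ) ≤
      (N : ℝ) / I + Nat.primeCounting (N + a) := by
  have hsub : (Icc 1 N).filter (fun n => ∃ i, I ≤ i ∧ pa i ∣ n + a ∧ pb i ∣ n + b) ⊆
      ((Ico I (N + a)).filter (fun i => pa i ≤ N + a)).biUnion
        (fun i => (Icc 1 N).filter (fun n => pa i ∣ n + a ∧ pb i ∣ n + b)) := by
    intro n hn
    obtain ⟨h1, i, h2, h3, h4⟩ := mem_filter.1 hn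
    have h5 := mem_Icc.1 h1
    have h6 : pa i ≤ n + a := Nat.le_of_dvd (by omega) h3
    have h7 := lt_pa i
    rw [mem_biUnion]
    refine ⟨i, ?_, ?_⟩
    · rw [mem_filter, mem_Ico]
      exact ⟨⟨h2, by omega⟩, by omega⟩
    · rw [mem_filter]
      exact ⟨h1, h3, h4⟩
  have h1 : (((Icc 1 N).filter (fun n => ∃ i, I ≤ i ∧ pa i ∣ n + a ∧ pb i ∣ n + b)).card : ℝ) ≤
      ∑ i ∈ (Ico I (N + a)).filter (fun i => pa i ≤ N + a),
        (((Icc 1 N).filter (fun n => pa i ∣ n + a ∧ pb i ∣ n + b)).card : ℝ) := by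
    exact_mod_cast (card_le_card hsub).trans card_biUnion_le
  refine h1.trans ?_
  have h2 : ∀ i ∈ (Ico I (N + a)).filter (fun i => pa i ≤ N + a),
      (((Icc 1 N).filter (fun n => pa i ∣ n + a ∧ pb i ∣ n + b)).card : ℝ) ≤
        (N : ℝ) * (1 / ((i : ℝ) + 1) ^ 2) + 1 := by
    intro i _
    have h3 := card_classes N (pa i * pb i) ((Icc 1 N).filter (fun n => pa i ∣ n + a ∧ pb i ∣ n + b))
      (fun n hn => (mem_Icc.1 (mem_filter.1 hn).1).2) (by
        intro n hn m hm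
        obtain ⟨-, q1, q2⟩ := mem_filter.1 hn
        obtain ⟨-, q3, q4⟩ := mem_filter.1 hm
        have hco : Nat.Coprime (pa i) (pb i) := (Nat.coprime_primes (pa_prime i) (pb_prime i)).2 (pa_ne_pb i i)
        have e1 : n ≡ m [MOD pa i] := by
          have : n + a ≡ m + a [MOD pa i] := ((Nat.modEq_zero_iff_dvd.2 q1)).trans (Nat.modEq_zero_iff_dvd.2 q3).symm
          exact Nat.ModEq.add_right_cancel' a this
        have e2 : n ≡ m [MOD pb i] := by
          have : n + b ≡ m + b [MOD pb i] := ((Nat.modEq_zero_iff_dvd.2 q2)).trans (Nat.modEq_zero_iff_dvd.2 q4).symm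
          exact Nat.ModEq.add_right_cancel' b this
        exact (Nat.modEq_and_modEq_iff_modEq_mul hco).1 ⟨e1, e2⟩)
    have h4 : (((Icc 1 N).filter (fun n => pa i ∣ n + a ∧ pb i ∣ n + b)).card : ℝ) ≤
        ((N / (pa i * pb i) : ℕ) : ℝ) + 1 := by exact_mod_cast h3
    refine h4.trans ?_
    have h5 : ((N / (pa i * pb i) : ℕ) : ℝ) ≤ (N : ℝ) / ((pa i * pb i : ℕ) : ℝ) := Nat.cast_div_le
    have h6 := lt_pa i
    have h7 := pa_lt_pb i
    have h8 : ((i : ℝ) + 1) ^ 2 ≤ ((pa i * pb i : ℕ) : ℝ) := by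
      have h9 : (i + 1) ^ 2 ≤ pa i * pb i := by
        rw [sq]
        exact Nat.mul_le_mul (by omega) (by omega)
      exact_mod_cast h9
    have h9 : (N : ℝ) / ((pa i * pb i : ℕ) : ℝ) ≤ (N : ℝ) / ((i : ℝ) + 1) ^ 2 :=
      div_le_div_of_nonneg_left (Nat.cast_nonneg _) (by positivity) h8
    rw [mul_one_div]
    linarith
  refine (sum_le_sum h2).trans ?_
  rw [sum_add_distrib, ← mul_sum, sum_const, nsmul_eq_mul, mul_one]
  apply add_le_add
  · have h3 : ∑ i ∈ (Ico I (N + a)).filter (fun i => pa i ≤ N + a), (1 : ℝ) / ((i : ℝ) + 1) ^ 2 ≤ 1 / (I : ℝ) :=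
      (sum_le_sum_of_subset_of_nonneg (filter_subset _ _) fun _ _ _ => by positivity).trans (sum_inv_sq' I (N + a) hI)
    refine (mul_le_mul_of_nonneg_left h3 (Nat.cast_nonneg _)).trans (le_of_eq ?_)
    rw [mul_one_div]
  · have h3 : ((Ico I (N + a)).filter (fun i => pa i ≤ N + a)).card ≤ ((range (N + a + 1)).filter Nat.Prime).card := by
      refine card_le_card_of_injOn pa ?_ ?_
      · intro i hi
        have := (mem_filter.1 (mem_coe.1 hi)).2
        rw [mem_coe, mem_filter, mem_range]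
        exact ⟨by omega, pa_prime i⟩
      · intro i _ j _ hij
        exact pa_strictMono.injective hij
    have h4 : ((range (N + a + 1)).filter Nat.Prime).card = Nat.primeCounting (N + a) := by
      rw [Nat.primeCounting, Nat.primeCounting', Nat.count_eq_card_filter_range]
    rw [h4] at h3
    exact_mod_cast h3

end Pool.Agent.Helper66.CW
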