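import Pool.Agent.Helper66.CW.Zset1

/-!
# Integers whose prime factors all have small index (CW project, MP_a499ba_nt)
-/

set_option autoImplicit false

namespace Pool.Agent.Helper66.CW

open Finset Filter Pool.Agent.Helper66.MB

/-- The total exponent of `p` in `1, ..., M`. -/
theorem sum_fact (p M : ℕ) (hp : p.Prime) :
    (∑ m ∈ Icc 1 M, (m.factorization p : ℝ)) * ((p : ℝ) - 1) ≤ M := by
  have h1 : ∀ M : ℕ, ∑ m ∈ Icc 1 M, m.factorization p = M.factorial.factorization p := by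
    intro M
    induction M with
    | zero => simp
    | succ M ih =>
      rw [sum_Icc_succ_top (by omega), ih, Nat.factorial_succ, Nat.factorization_mul (by omega) M.factorial_ne_zero]
      rw [Finsupp.add_apply]
      ring
  have h2 := Nat.sub_one_mul_factorization_factorial (n := M) hp
  have h3 : (p - 1) * M.factorial.factorization p ≤ M := by omega
  have h4 : (∑ m ∈ Icc 1 M, (m.factorization p : ℝ)) = ((M.factorial.factorization p : ℕ) : ℝ) := by
    rw [← h1 M]
    push_cast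
    rfl
  rw [h4]
  have h5 : ((p : ℝ) - 1) = ((p - 1 : ℕ) : ℝ) := by
    rw [Nat.cast_sub hp.one_lt.le]
    simp
  rw [h5, mul_comm]
  exact_mod_cast h3

/-- The logarithm of an integer all whose prime factors have index below `I`. -/
theorem log_smooth (m I : ℕ) (h : ∀ p : ℕ, p.Prime → p ∣ m → ix p < I) :
    Real.log m = ∑ j ∈ range (2 * I), (m.factorization (Nat.nth Nat.Prime j) : ℝ) * Real.log (Nat.nth Nat.Prime j) := by
  rw [Real.log_nat_eq_sum_factorization, Finsupp.sum]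
  have hinj : Set.InjOn (fun j => Nat.nth Nat.Prime j) ((range (2 * I) : Finset ℕ) : Set ℕ) := by
    intro i _ j _ hij
    exact (Nat.nth_injective Nat.infinite_setOfPred_prime) hij
  rw [← sum_image (f := fun p => (m.factorization p : ℝ) * Real.log p) (g := fun j => Nat.nth Nat.Prime j)
    (s := range (2 * I)) (fun x hx y hy hxy => hinj hx hy hxy)]
  refine sum_subset ?_ ?_
  · intro p hp
    have hpp : p.Prime := Nat.prime_of_mem_primeFactors hp
    have hpd : p ∣ m := Nat.dvd_of_mem_primeFactors hp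
    rw [mem_image]
    refine ⟨Nat.count Nat.Prime p, ?_, Nat.nth_count hpp⟩
    rw [mem_range]
    have := h p hpp hpd
    unfold ix at this
    omega
  · intro p _ hp
    rw [Finsupp.notMem_support_iff.1 hp]
    simp

theorem nth_ge (j : ℕ) : j + 2 ≤ Nat.nth Nat.Prime j := Nat.add_two_le_nth_prime j

theorem logdiv_le (p j : ℕ) (hp : j + 2 ≤ p) : Real.log p / ((p : ℝ) - 1) ≤ 8 * ((j : ℝ) + 1) ^ (-(3 / 4) : ℝ) := by
  have hp' : (j : ℝ) + 2 ≤ p := by exact_mod_cast hp
  have hj : (0 : ℝ) ≤ j := Nat.cast_nonneg _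
  have hp0 : (0 : ℝ) < p := by linarith
  have h1 : Real.log p ≤ (p : ℝ) ^ (1 / 4 : ℝ) / (1 / 4) := Real.log_le_rpow_div hp0.le (by norm_num)
  have h2 : (p : ℝ) / 2 ≤ p - 1 := by linarith
  have h3 : 0 ≤ Real.log p := Real.log_nonneg (by linarith)
  have h4 : Real.log p / ((p : ℝ) - 1) ≤ Real.log p / ((p : ℝ) / 2) :=
    div_le_div_of_nonneg_left h3 (by linarith) h2
  have h5 : Real.log p / ((p : ℝ) / 2) ≤ 8 * (p : ℝ) ^ (-(3 / 4) : ℝ) := by
    rw [div_le_iff₀ (by linarith)]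
    have h6 : 8 * (p : ℝ) ^ (-(3 / 4) : ℝ) * (p / 2) = 4 * (p : ℝ) ^ (1 / 4 : ℝ) := by
      have h7 : (p : ℝ) ^ (-(3 / 4) : ℝ) * p = (p : ℝ) ^ (1 / 4 : ℝ) := by
        nth_rewrite 2 [← Real.rpow_one (p : ℝ)]
        rw [← Real.rpow_add hp0]
        norm_num
      rw [← h7]
      ring
    rw [h6]
    linarith
  refine h4.trans (h5.trans ?_)
  apply mul_le_mul_of_nonneg_left _ (by norm_num)
  exact Real.rpow_le_rpow_of_nonpos (by linarith) (by linarith) (by norm_num)

theorem sum_rpow (K : ℕ) : ∑ j ∈ range K, ((j : ℝ) + 1) ^ (-(3 / 4) : ℝ) ≤ 4 * (K : ℝ) ^ (1 / 4 : ℝ) := by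
  induction K with
  | zero =>
    simp
  | succ K ih =>
    rw [sum_range_succ]
    have hK : (0 : ℝ) ≤ K := Nat.cast_nonneg _
    have h1 : ((K : ℝ) + 1) ^ (-(3 / 4) : ℝ) ≤ 4 * ((K : ℝ) + 1) ^ (1 / 4 : ℝ) - 4 * (K : ℝ) ^ (1 / 4 : ℝ) := by
      set x : ℝ := ((K : ℝ) + 1) ^ (1 / 4 : ℝ) with hx
      set y : ℝ := (K : ℝ) ^ (1 / 4 : ℝ) with hy
      have hx0 : 0 < x := by positivity
      have hy0 : 0 ≤ y := by positivity
      have hxy : y ≤ x := Real.rpow_le_rpow hK (by linarith) (by norm_num)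
      have hx4 : x ^ 4 = (K : ℝ) + 1 := by
        rw [hx, ← Real.rpow_natCast, ← Real.rpow_mul (by positivity)]
        norm_num
      have hy4 : y ^ 4 = (K : ℝ) := by
        rw [hy, ← Real.rpow_natCast, ← Real.rpow_mul hK]
        norm_num
      have h2 : ((K : ℝ) + 1) ^ (-(3 / 4) : ℝ) = 1 / x ^ 3 := by
        rw [one_div, hx, ← Real.rpow_natCast, ← Real.rpow_mul (by positivity), ← Real.rpow_neg (by positivity)]
        norm_num
      rw [h2, div_le_iff₀ (by positivity)]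
      have h3 : x ^ 4 - y ^ 4 = 1 := by rw [hx4, hy4]; ring
      nlinarith [mul_nonneg hy0 (sq_nonneg (x - y)), mul_nonneg hx0.le (sq_nonneg (x - y)),
        mul_nonneg (sub_nonneg.2 hxy) (mul_nonneg hx0.le hx0.le), mul_nonneg (sub_nonneg.2 hxy) (mul_nonneg hy0 hy0),
        mul_nonneg (sub_nonneg.2 hxy) (mul_nonneg hx0.le hy0),
        mul_nonneg (sub_nonneg.2 hxy) (mul_nonneg (sub_nonneg.2 hxy) (mul_nonneg hx0.le hx0.le)),
        mul_nonneg (sub_nonneg.2 hxy) (mul_nonneg (sub_nonneg.2 hxy) (mul_nonneg hx0.le hy0)),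
        mul_nonneg (sub_nonneg.2 hxy) (mul_nonneg (sub_nonneg.2 hxy) (mul_nonneg hy0 hy0))]
    push_cast
    linarith

open Classical in
theorem countD (M I : ℕ) (hM : 2 ≤ M) :
    (((Icc 1 M).filter (fun m => ∀ p : ℕ, p.Prime → p ∣ m → ix p < I)).card : ℝ) ≤
      Real.sqrt M + 64 * M * (2 * (I : ℝ)) ^ (1 / 4 : ℝ) / Real.log M := by
  set S := (Icc 1 M).filter (fun m => ∀ p : ℕ, p.Prime → p ∣ m → ix p < I) with hS
  set S1 := S.filter (fun m : ℕ => (m : ℝ) ≤ Real.sqrt M) with hS1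
  set S2 := S.filter (fun m : ℕ => ¬ (m : ℝ) ≤ Real.sqrt M) with hS2
  have hM2 : (2 : ℝ) ≤ M := by exact_mod_cast hM
  have hlog : 0 < Real.log M := Real.log_pos (by linarith)
  have h0 : (S.card : ℝ) = (S1.card : ℝ) + (S2.card : ℝ) := by
    rw [hS1, hS2]
    exact_mod_cast (card_filter_add_card_filter_not (s := S) (fun m : ℕ => (m : ℝ) ≤ Real.sqrt M)).symm
  have h1 : (S1.card : ℝ) ≤ Real.sqrt M := by
    have h2 : S1.card ≤ (Icc 1 ⌊Real.sqrt M⌋₊).card := by
      apply card_le_card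
      intro m hm
      have h3 := mem_filter.1 hm
      have h4 := mem_Icc.1 (mem_filter.1 h3.1).1
      rw [mem_Icc]
      exact ⟨h4.1, Nat.le_floor h3.2⟩
    rw [Nat.card_Icc, Nat.add_sub_cancel] at h2
    exact (Nat.cast_le.2 h2).trans (Nat.floor_le (Real.sqrt_nonneg _))
  have h2 : (S2.card : ℝ) * (Real.log M / 2) ≤ 32 * M * (2 * (I : ℝ)) ^ (1 / 4 : ℝ) := by
    have h3 : (S2.card : ℝ) * (Real.log M / 2) ≤ ∑ m ∈ S2, Real.log m := by
      rw [← nsmul_eq_mul, ← sum_const]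
      refine sum_le_sum fun m hm => ?_
      have h4 := (mem_filter.1 hm).2
      have h5 : Real.sqrt M < m := not_le.1 h4
      have h6 : Real.log (Real.sqrt M) ≤ Real.log m := Real.log_le_log (Real.sqrt_pos.2 (by linarith)) h5.le
      rwa [Real.log_sqrt (by linarith)] at h6
    have h4 : ∑ m ∈ S2, Real.log m ≤ ∑ m ∈ Icc 1 M, ∑ j ∈ range (2 * I),
        (m.factorization (Nat.nth Nat.Prime j) : ℝ) * Real.log (Nat.nth Nat.Prime j) := by
      have h5 : ∑ m ∈ S2, Real.log m = ∑ m ∈ S2, ∑ j ∈ range (2 * I),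
          (m.factorization (Nat.nth Nat.Prime j) : ℝ) * Real.log (Nat.nth Nat.Prime j) := by
        refine sum_congr rfl fun m hm => ?_
        have h6 := mem_filter.1 (mem_filter.1 hm).1
        exact log_smooth m I h6.2
      rw [h5]
      refine sum_le_sum_of_subset_of_nonneg ?_ ?_
      · intro m hm
        exact (mem_filter.1 (mem_filter.1 hm).1).1
      · intro m _ _
        refine sum_nonneg fun j _ => mul_nonneg (Nat.cast_nonneg _) ?_
        apply Real.log_nonneg
        have := nth_ge j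
        have h7 : (1 : ℝ) ≤ ((j + 2 : ℕ) : ℝ) := by push_cast; linarith [Nat.cast_nonneg (α := ℝ) j]
        exact h7.trans (by exact_mod_cast this)
    refine h3.trans (h4.trans ?_)
    rw [sum_comm]
    have h5 : ∀ j ∈ range (2 * I), ∑ m ∈ Icc 1 M,
        (m.factorization (Nat.nth Nat.Prime j) : ℝ) * Real.log (Nat.nth Nat.Prime j) ≤
          (M : ℝ) * (8 * ((j : ℝ) + 1) ^ (-(3 / 4) : ℝ)) := by
      intro j _
      rw [← sum_mul]
      set p := Nat.nth Nat.Prime j with hp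
      have hpp : p.Prime := Nat.prime_nth_prime j
      have hpj := nth_ge j
      have hp1 : (0 : ℝ) < (p : ℝ) - 1 := by
        have : (1 : ℝ) < p := by exact_mod_cast hpp.one_lt
        linarith
      have h6 := sum_fact p M hpp
      have h7 : ∑ m ∈ Icc 1 M, (m.factorization p : ℝ) ≤ M / ((p : ℝ) - 1) := by
        rw [le_div_iff₀ hp1]
        exact h6
      have h8 := logdiv_le p j hpj
      have h9 : 0 ≤ Real.log p := Real.log_nonneg (by linarith)
      calc (∑ m ∈ Icc 1 M, (m.factorization p : ℝ)) * Real.log p ≤ (M / ((p : ℝ) - 1)) * Real.log p :=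
            mul_le_mul_of_nonneg_right h7 h9
        _ = M * (Real.log p / ((p : ℝ) - 1)) := by ring
        _ ≤ _ := mul_le_mul_of_nonneg_left h8 (Nat.cast_nonneg _)
    refine (sum_le_sum h5).trans ?_
    rw [← mul_sum, ← mul_sum]
    have h6 := sum_rpow (2 * I)
    have h7 : (M : ℝ) * (8 * ∑ j ∈ range (2 * I), ((j : ℝ) + 1) ^ (-(3 / 4) : ℝ)) ≤
        M * (8 * (4 * ((2 * I : ℕ) : ℝ) ^ (1 / 4 : ℝ))) := by
      apply mul_le_mul_of_nonneg_left _ (Nat.cast_nonneg _)
      linarith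
    refine h7.trans (le_of_eq ?_)
    push_cast
    ring
  have h3 : (S2.card : ℝ) ≤ 64 * M * (2 * (I : ℝ)) ^ (1 / 4 : ℝ) / Real.log M := by
    rw [le_div_iff₀ hlog]
    linarith
  rw [h0]
  linarith

end Pool.Agent.Helper66.CW
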